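import Pool.Agent.H419.RM.StmS
import Pool.Graph.R_seed8.TH858.J3094

/-! # Totally split primes -/

set_option autoImplicit false

open NumberField

namespace Pool.Agent.H419.RM.SPS

section facts

variable (K M : Type) [Field K] [NumberField K] [Field M] [NumberField M] [Algebra K M]
  [IsGalois K M]

theorem facts (𝔭 : Ideal (𝓞 K)) (hp : 𝔭.IsPrime) (hp0 : 𝔭 ≠ ⊥) (𝔓 : Ideal (𝓞 M))
    (hP : 𝔓.IsPrime) (hover : 𝔓.comap (algebraMap (𝓞 K) (𝓞 M)) = 𝔭) :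
    ∃ e f : ℕ, 0 < e ∧ 0 < f ∧
      Set.ncard (𝔭.primesOver (𝓞 M)) * (e * f) = Module.finrank K M ∧
      Ideal.absNorm 𝔓 = Ideal.absNorm 𝔭 ^ f ∧
      (2 ≤ e → 𝔓 ∣ differentIdeal (𝓞 K) (𝓞 M)) := by
  have hlo : 𝔓.LiesOver 𝔭 := ⟨hover.symm⟩
  have hmax : 𝔭.IsMaximal := hp.isMaximal hp0
  refine ⟨𝔓.ramificationIdx (𝓞 K), 𝔓.inertiaDeg (𝓞 K), Ideal.ramificationIdx_pos 𝔓 (𝓞 K),
    Ideal.inertiaDeg_pos 𝔓 (𝓞 K), ?_, (Ideal.absNorm_pow_inertiaDeg 𝔭 𝔓).symm, ?_⟩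
  · rw [← Ideal.ramificationIdxIn_eq_ramificationIdx 𝔭 𝔓 Gal(M/K),
      ← Ideal.inertiaDegIn_eq_inertiaDeg 𝔭 𝔓 Gal(M/K),
      Ideal.ncard_primesOver_mul_ramificationIdxIn_mul_inertiaDegIn 𝔭 (𝓞 M) Gal(M/K),
      IsGalois.card_aut_eq_finrank]
  · intro he
    have hmap : 𝔭.map (algebraMap (𝓞 K) (𝓞 M)) ≠ ⊥ := Ideal.map_ne_bot_of_ne_bot hp0
    rw [Ideal.IsDedekindDomain.ramificationIdx_eq_multiplicity 𝔭 𝔓 hmap] at he
    have h2 : 𝔓 ^ 2 ∣ 𝔭.map (algebraMap (𝓞 K) (𝓞 M)) := pow_dvd_of_le_multiplicity he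
    have h3 := pow_sub_one_dvd_differentIdeal (𝓞 K) 𝔓 2 hp0 h2
    simpa using h3

omit [IsGalois K M] in
theorem finite_over (𝔭 : Ideal (𝓞 K)) (hp : 𝔭.IsPrime) (hp0 : 𝔭 ≠ ⊥) :
    (𝔭.primesOver (𝓞 M)).Finite := by
  have hmax : 𝔭.IsMaximal := hp.isMaximal hp0
  exact IsDedekindDomain.primesOver_finite 𝔭 (𝓞 M)

omit [IsGalois K M] in
theorem diff_ne : differentIdeal (𝓞 K) (𝓞 M) ≠ ⊥ := differentIdeal_ne_bot

end facts

theorem summable_fiber {α β : Type} (π : α → β) (n : ℕ) (hfin : ∀ b, {a | π a = b}.Finite)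
    (hn : ∀ b, {a | π a = b}.ncard ≤ n) (h : β → ℝ) (h0 : ∀ b, 0 ≤ h b) (hs : Summable h) :
    Summable (fun a => h (π a)) := by
  classical
  refine summable_of_sum_le (c := n * ∑' b, h b) (fun a => h0 _) ?_
  intro s
  rw [Finset.sum_comp h π]
  calc ∑ b ∈ s.image π, (s.filter (fun a => π a = b)).card • h b
      ≤ ∑ b ∈ s.image π, (n : ℝ) * h b := by
        refine Finset.sum_le_sum fun b _ => ?_
        rw [nsmul_eq_mul]
        refine mul_le_mul_of_nonneg_right ?_ (h0 b)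
        have h1 : (s.filter (fun a => π a = b)).card ≤ n := by
          rw [← Set.ncard_coe_finset]
          refine (Set.ncard_le_ncard ?_ (hfin b)).trans (hn b)
          intro a ha
          exact (Finset.mem_filter.1 (Finset.mem_coe.1 ha)).2
        exact_mod_cast h1
    _ = n * ∑ b ∈ s.image π, h b := (Finset.mul_sum _ _ _).symm
    _ ≤ n * ∑' b, h b :=
        mul_le_mul_of_nonneg_left (hs.sum_le_tsum _ (fun b _ => h0 b)) (Nat.cast_nonneg _)

theorem t_SPS : S_SPS := by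
  classical
  intro K M _ _ _ _ _ _ S hS
  have hn0 : 0 < Module.finrank K M := Module.finrank_pos
  constructor
  · intro h
    have hex : ∀ 𝔭 : {𝔭 : Ideal (𝓞 K) // 𝔭 ∈ S ∧
        Set.ncard (𝔭.primesOver (𝓞 M)) = Module.finrank K M},
        ∃ 𝔓 : {𝔓 : Ideal (𝓞 M) | 𝔓.IsPrime ∧ 𝔓.comap (algebraMap (𝓞 K) (𝓞 M)) ∈ S},
          𝔓.1.comap (algebraMap (𝓞 K) (𝓞 M)) = 𝔭.1 ∧ Ideal.absNorm 𝔓.1 = Ideal.absNorm 𝔭.1 := by
      rintro ⟨𝔭, hp, hc⟩
      obtain ⟨hpp, hp0⟩ := hS 𝔭 hp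
      have hne : (𝔭.primesOver (𝓞 M)).Nonempty := by
        apply Set.nonempty_of_ncard_ne_zero
        omega
      obtain ⟨𝔓, hP, hlo⟩ := hne
      have hover : 𝔓.comap (algebraMap (𝓞 K) (𝓞 M)) = 𝔭 := hlo.over.symm
      obtain ⟨e, f, he, hf, h1, h2, -⟩ := facts K M 𝔭 hpp hp0 𝔓 hP hover
      have hf1 : f = 1 := by
        rw [hc] at h1
        have h3 : e * f = 1 := Nat.eq_of_mul_eq_mul_left hn0 (by rw [h1, mul_one])
        exact Nat.dvd_one.1 ⟨e, by rw [mul_comm]; exact h3.symm⟩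
      refine ⟨⟨𝔓, hP, by rw [hover]; exact hp⟩, hover, ?_⟩
      show Ideal.absNorm 𝔓 = Ideal.absNorm 𝔭
      rw [h2, hf1, pow_one]
    choose Φ hΦ1 hΦ2 using hex
    have hinj : Function.Injective Φ := by
      intro x y hxy
      apply Subtype.ext
      rw [← hΦ1 x, ← hΦ1 y, hxy]
    refine (h.comp_injective hinj).congr fun 𝔭 => ?_
    show (1 : ℝ) / Ideal.absNorm (Φ 𝔭).1 = 1 / Ideal.absNorm 𝔭.1
    rw [hΦ2]
  · intro h
    let PM : Set (Ideal (𝓞 M)) :=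
      {𝔓 : Ideal (𝓞 M) | 𝔓.IsPrime ∧ 𝔓.comap (algebraMap (𝓞 K) (𝓞 M)) ∈ S}
    let π : PM → Ideal (𝓞 K) := fun 𝔓 => 𝔓.1.comap (algebraMap (𝓞 K) (𝓞 M))
    let hA : Ideal (𝓞 K) → ℝ := fun 𝔭 => if 𝔭 ∈ S ∧
      Set.ncard (𝔭.primesOver (𝓞 M)) = Module.finrank K M then (1 : ℝ) / Ideal.absNorm 𝔭 else 0
    let hB : Ideal (𝓞 K) → ℝ := fun 𝔭 => 1 / (Ideal.absNorm 𝔭 : ℝ) ^ 2
    have hAs : Summable hA := by
      refine (Function.Injective.summable_iff
        (Subtype.val_injective (p := fun 𝔭 : Ideal (𝓞 K) => 𝔭 ∈ S ∧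
          Set.ncard (𝔭.primesOver (𝓞 M)) = Module.finrank K M)) ?_).1 ?_
      · intro 𝔭 hp
        refine if_neg fun hc => hp ⟨⟨𝔭, hc⟩, rfl⟩
      · refine h.congr fun 𝔭 => ?_
        exact (if_pos 𝔭.2).symm
    have hBs : Summable hB := by
      refine (Function.Injective.summable_iff
        (Subtype.val_injective (p := fun I : Ideal (𝓞 K) => I ≠ ⊥)) ?_).1
        (Pool.Agent.TH858.J3094.summable_inv_sq K)
      intro I hI
      have : I = ⊥ := by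
        by_contra hc
        exact hI ⟨⟨I, hc⟩, rfl⟩
      show (1 : ℝ) / (Ideal.absNorm I : ℝ) ^ 2 = 0
      rw [this, Ideal.absNorm_bot]
      norm_num
    have hfib : ∀ b : Ideal (𝓞 K), {a : PM | π a = b}.Finite ∧
        {a : PM | π a = b}.ncard ≤ Module.finrank K M := by
      intro b
      by_cases hb : b ∈ S
      · obtain ⟨hbp, hb0⟩ := hS b hb
        have hsub : Subtype.val '' {a : PM | π a = b} ⊆ b.primesOver (𝓞 M) := by
          rintro _ ⟨a, ha, rfl⟩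
          exact ⟨a.2.1, ⟨(Set.mem_ofPred_eq.mp ha).symm⟩⟩
        have hfin := finite_over K M b hbp hb0
        have hfin' : (Subtype.val '' {a : PM | π a = b}).Finite := hfin.subset hsub
        refine ⟨hfin'.of_finite_image Subtype.val_injective.injOn, ?_⟩
        rw [← Set.ncard_image_of_injective _ Subtype.val_injective]
        refine (Set.ncard_le_ncard hsub hfin).trans ?_
        rcases Set.eq_empty_or_nonempty (b.primesOver (𝓞 M)) with h0 | ⟨𝔓, hP, hlo⟩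
        · rw [h0, Set.ncard_empty]
          exact Nat.zero_le _
        · obtain ⟨e, f, he, hf, h1, -, -⟩ := facts K M b hbp hb0 𝔓 hP hlo.over.symm
          rw [← h1]
          exact Nat.le_mul_of_pos_right _ (Nat.mul_pos he hf)
      · have : {a : PM | π a = b} = ∅ := by
          rw [Set.eq_empty_iff_forall_notMem]
          intro a ha
          exact hb (ha ▸ a.2.2)
        rw [this]
        exact ⟨Set.finite_empty, by rw [Set.ncard_empty]; exact Nat.zero_le _⟩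
    have hA0 : ∀ b, 0 ≤ hA b := by
      intro b
      show 0 ≤ (if b ∈ S ∧ Set.ncard (b.primesOver (𝓞 M)) = Module.finrank K M then
        (1 : ℝ) / Ideal.absNorm b else 0)
      split_ifs
      · positivity
      · exact le_rfl
    have hB0 : ∀ b, 0 ≤ hB b := by
      intro b
      show 0 ≤ 1 / (Ideal.absNorm b : ℝ) ^ 2
      positivity
    have s1 := summable_fiber π _ (fun b => (hfib b).1) (fun b => (hfib b).2) hA hA0 hAs
    have s2 := summable_fiber π _ (fun b => (hfib b).1) (fun b => (hfib b).2) hB hB0 hBs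
    let gC : PM → ℝ := fun 𝔓 => if 𝔓.1 ∣ differentIdeal (𝓞 K) (𝓞 M) then 1 else 0
    have s3 : Summable gC := by
      have hf : {x : Ideal (𝓞 M) | x ∣ differentIdeal (𝓞 K) (𝓞 M)}.Finite := by
        have hi := UniqueFactorizationMonoid.fintypeSubtypeDvd (differentIdeal (𝓞 K) (𝓞 M))
          (diff_ne K M)
        have hj : Finite {x : Ideal (𝓞 M) // x ∣ differentIdeal (𝓞 K) (𝓞 M)} :=
          Finite.of_fintype _
        exact Set.finite_coe_iff.1 hj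
      have hf' : {x : PM | x.1 ∣ differentIdeal (𝓞 K) (𝓞 M)}.Finite :=
        Set.Finite.of_finite_image (f := Subtype.val) (hf.subset (by
          rintro _ ⟨a, ha, rfl⟩
          exact ha)) Subtype.val_injective.injOn
      refine summable_of_hasFiniteSupport (hf'.subset ?_)
      intro x hx
      by_contra hc
      exact hx (if_neg hc)
    refine Summable.of_nonneg_of_le (fun 𝔓 => by positivity) ?_ ((s1.add s2).add s3)
    intro 𝔓
    obtain ⟨hpp, hp0⟩ := hS _ 𝔓.2.2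
    obtain ⟨e, f, he, hf, h1, h2, h3⟩ := facts K M (π 𝔓) hpp hp0 𝔓.1 𝔓.2.1 rfl
    have hN1 : 1 ≤ Ideal.absNorm (π 𝔓) := by
      rw [Nat.one_le_iff_ne_zero, Ne, Ideal.absNorm_eq_zero_iff]
      exact hp0
    have hN1' : (1 : ℝ) ≤ Ideal.absNorm (π 𝔓) := by exact_mod_cast hN1
    show (1 : ℝ) / Ideal.absNorm 𝔓.1 ≤ hA (π 𝔓) + hB (π 𝔓) + gC 𝔓
    have hC0 : 0 ≤ gC 𝔓 := by
      show 0 ≤ (if 𝔓.1 ∣ differentIdeal (𝓞 K) (𝓞 M) then (1 : ℝ) else 0)
      split_ifs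
      · exact zero_le_one
      · exact le_rfl
    rw [h2]
    push_cast
    by_cases hf2 : 2 ≤ f
    · have h4 : (1 : ℝ) / (Ideal.absNorm (π 𝔓) : ℝ) ^ f ≤ hB (π 𝔓) :=
        one_div_le_one_div_of_le (by positivity) (pow_le_pow_right₀ hN1' hf2)
      linarith [hA0 (π 𝔓)]
    by_cases he2 : 2 ≤ e
    · have h4 : gC 𝔓 = 1 := if_pos (h3 he2)
      have h5 : (1 : ℝ) / (Ideal.absNorm (π 𝔓) : ℝ) ^ f ≤ 1 := by
        rw [div_le_one (by positivity)]
        exact one_le_pow₀ hN1'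
      linarith [hA0 (π 𝔓), hB0 (π 𝔓)]
    have hf1 : f = 1 := by omega
    have he1 : e = 1 := by omega
    rw [he1, hf1, mul_one, mul_one] at h1
    have h4 : hA (π 𝔓) = 1 / Ideal.absNorm (π 𝔓) := if_pos ⟨𝔓.2.2, h1⟩
    rw [h4, hf1, pow_one]
    linarith [hB0 (π 𝔓)]

end Pool.Agent.H419.RM.SPS
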