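import Pool.Agent.H419.RM.Stm
import Pool.Agent.H419.LT.CONE

/-!
# Project RM: the residue classes in the fundamental cone have equal densities
-/

set_option autoImplicit false

open NumberField Filter Topology Bornology MeasureTheory Module
open NumberField.mixedEmbedding NumberField.mixedEmbedding.fundamentalCone
open NumberField.mixedEmbedding.euclidean NumberField.Units
open scoped Classical nonZeroDivisors

namespace Pool.Agent.H419.RM.CEX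

open Pool.Agent.TH444.ML Pool.Agent.TH938.ML Pool.Agent.TH938.J3088 Pool.Agent.H419.LT
  Pool.Agent.H419.LT.CONE

section

variable (M : Type) [Field M] [NumberField M]

/-- the density of a residue class modulo `𝔟` in the cone -/
noncomputable def dn (𝔟 : Ideal (𝓞 M)) : ℝ :=
  if h : 𝔟 ≠ ⊥ then volume.real (SS M) /
    ZLattice.covolume (LL M ⟨𝔟, mem_nonZeroDivisors_of_ne_zero h⟩) else 0

theorem dn_pos (𝔟 : Ideal (𝓞 M)) (h : 𝔟 ≠ ⊥) : 0 < dn M 𝔟 := by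
  unfold dn
  rw [dif_pos h]
  exact div_pos (SS_pos M) (ZLattice.covolume_pos _ _)

theorem lim_dn (𝔟 : Ideal (𝓞 M)) (h𝔟 : 𝔟 ≠ ⊥) (a : 𝓞 M) :
    Tendsto (fun Z : ℝ =>
      (Set.ncard {α : 𝓞 M | α ∈ cone M ∧ α - a ∈ 𝔟 ∧ nrm α ≤ Z} : ℝ) / Z) atTop
      (𝓝 (dn M 𝔟)) := by
  unfold dn
  rw [dif_pos h𝔟]
  set J : (Ideal (𝓞 M))⁰ := ⟨𝔟, mem_nonZeroDivisors_of_ne_zero h𝔟⟩ with hJ
  have hlim := pts_shift (LL M J) (SS_bdd M) (SS_meas M) (SS_front M) (ev M a)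
  rw [euclidean.finrank] at hlim
  refine squeeze (B := fun Z => ((CS M 𝔟 a Z).ncard : ℝ)) ?_ (D := finrank ℚ M) finrank_pos ?_
  · intro Z Z' hZ
    show ((CS M 𝔟 a Z).ncard : ℝ) ≤ (CS M 𝔟 a Z').ncard
    have h1 : CS M 𝔟 a Z ⊆ CS M 𝔟 a Z' := fun α h => ⟨h.1, h.2.1, h.2.2.trans hZ⟩
    exact_mod_cast Set.ncard_le_ncard h1 (CS_finite M J a Z')
  · refine hlim.congr' ?_
    filter_upwards [eventually_gt_atTop 0] with n hn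
    congr 2
    rw [← CS_image M J a hn, Set.ncard_image_of_injective _ (smul_ev_inj M hn)]

theorem dn_eq (𝔟 : Ideal (𝓞 M)) (h𝔟 : 𝔟 ≠ ⊥) :
    dn M 𝔟 = dn M ⊤ / Ideal.absNorm 𝔟 := by
  have hfinq : Finite (𝓞 M ⧸ 𝔟) := Ideal.finiteQuotientOfFreeOfNeBot 𝔟 h𝔟
  have : Fintype (𝓞 M ⧸ 𝔟) := Fintype.ofFinite _
  have htop : (⊤ : Ideal (𝓞 M)) ≠ ⊥ := top_ne_bot
  have hfin : ∀ Z : ℝ, {α : 𝓞 M | α ∈ cone M ∧ α - 0 ∈ (⊤ : Ideal (𝓞 M)) ∧ nrm α ≤ Z}.Finite :=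
    fun Z => CS_finite M ⟨⊤, mem_nonZeroDivisors_of_ne_zero htop⟩ 0 Z
  have key : ∀ Z : ℝ,
      (Set.ncard {α : 𝓞 M | α ∈ cone M ∧ α - 0 ∈ (⊤ : Ideal (𝓞 M)) ∧ nrm α ≤ Z} : ℝ) / Z =
      ∑ r : 𝓞 M ⧸ 𝔟,
        (Set.ncard {α : 𝓞 M | α ∈ cone M ∧ α - Quotient.out r ∈ 𝔟 ∧ nrm α ≤ Z} : ℝ) / Z := by
    intro Z
    rw [← Finset.sum_div]
    congr 1
    rw [Set.ncard_eq_toFinset_card _ (hfin Z),
      Finset.card_eq_sum_card_fiberwise (f := Ideal.Quotient.mk 𝔟) (t := Finset.univ)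
        (fun _ _ => Finset.mem_coe.2 (Finset.mem_univ _))]
    push_cast
    refine Finset.sum_congr rfl fun r _ => ?_
    rw [← Set.ncard_coe_finset]
    congr 2
    ext α
    rw [Finset.mem_coe, Finset.mem_filter, Set.Finite.mem_toFinset]
    have hr : Ideal.Quotient.mk 𝔟 (Quotient.out r) = r := Quotient.out_eq r
    constructor
    · rintro ⟨⟨h1, -, h2⟩, h3⟩
      refine ⟨h1, ?_, h2⟩
      rw [← Ideal.Quotient.eq, h3, hr]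
    · rintro ⟨h1, h2, h3⟩
      refine ⟨⟨h1, trivial, h3⟩, ?_⟩
      rw [← Ideal.Quotient.eq, hr] at h2
      exact h2
  have h1 := lim_dn M ⊤ htop 0
  have h2 : Tendsto (fun Z : ℝ => ∑ r : 𝓞 M ⧸ 𝔟,
      (Set.ncard {α : 𝓞 M | α ∈ cone M ∧ α - Quotient.out r ∈ 𝔟 ∧ nrm α ≤ Z} : ℝ) / Z) atTop
      (𝓝 (∑ _r : 𝓞 M ⧸ 𝔟, dn M 𝔟)) :=
    tendsto_finsetSum _ fun r _ => lim_dn M 𝔟 h𝔟 _
  simp only [key] at h1
  have h3 := tendsto_nhds_unique h1 h2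
  rw [Finset.sum_const, nsmul_eq_mul, Finset.card_univ, ← Nat.card_eq_fintype_card] at h3
  have h4 : (Ideal.absNorm 𝔟 : ℝ) ≠ 0 := by
    have : Ideal.absNorm 𝔟 ≠ 0 := by
      rw [Ne, Ideal.absNorm_eq_zero_iff]
      exact h𝔟
    exact_mod_cast this
  have h5 : (Nat.card (𝓞 M ⧸ 𝔟) : ℝ) = Ideal.absNorm 𝔟 := rfl
  rw [h3, h5]
  field_simp

end

theorem t_CEX : S_CEX := by
  intro M _ _
  refine ⟨dn M ⊤, dn_pos M ⊤ top_ne_bot, fun 𝔟 h𝔟 a => ?_⟩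
  rw [← dn_eq M 𝔟 h𝔟]
  exact lim_dn M 𝔟 h𝔟 a

end Pool.Agent.H419.RM.CEX
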