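import Pool.Agent.H419.RM.Stm
import Pool.Graph.R_seed8.TH938.J3088
import Pool.Graph.R_seed8.TH55.J3092

/-! # Uniform upper bound for the elements of an ideal in the cone -/

set_option autoImplicit false

open NumberField Filter Topology
open Pool.Agent.TH444.ML Pool.Agent.H419.LT Pool.Agent.H419.RM

namespace Pool.Agent.H419.RM.CUB

/-- fibres of size at most `w` -/
lemma ncard_le_mul {A B : Type} (S : Set A) (R : Set B) (hS : S.Finite) (hR : R.Finite)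
    (f : A → B) (w : ℕ) (hf : ∀ a ∈ S, f a ∈ R)
    (hw : ∀ a ∈ S, {b | b ∈ S ∧ f b = f a}.ncard ≤ w) : S.ncard ≤ w * R.ncard := by
  classical
  have h1 : S.ncard = hS.toFinset.card := Set.ncard_eq_toFinset_card S hS
  have h2 : R.ncard = hR.toFinset.card := Set.ncard_eq_toFinset_card R hR
  rw [h1, h2]
  refine (Finset.card_le_mul_card_image (f := f) hS.toFinset w ?_).trans ?_
  · intro b hb
    rw [Finset.mem_image] at hb
    obtain ⟨a, ha, rfl⟩ := hb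
    rw [Set.Finite.mem_toFinset] at ha
    refine le_trans (le_of_eq ?_) (hw a ha)
    rw [← Set.ncard_coe_finset]
    congr 1
    ext x
    simp
  · refine Nat.mul_le_mul_left w (Finset.card_le_card ?_)
    intro b hb
    rw [Finset.mem_image] at hb
    obtain ⟨a, ha, rfl⟩ := hb
    rw [Set.Finite.mem_toFinset] at ha ⊢
    exact hf a ha

variable (M : Type) [Field M] [NumberField M]

/-- the elements of the cone differing from `β` by a unit are at most `w` many -/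
lemma cone_le (hcf : ConeFacts) (β : 𝓞 M) (hβ : β ≠ 0) (S : Set (𝓞 M))
    (hS : ∀ γ ∈ S, γ ∈ cone M ∧ ∃ u : (𝓞 M)ˣ, γ = (u : 𝓞 M) * β) :
    S.Finite ∧ S.ncard ≤ Units.torsionOrder M := by
  have h := (hcf M).2.2 β hβ
  have hfin : {u : (𝓞 M)ˣ | (u : 𝓞 M) * β ∈ cone M}.Finite := by
    apply Set.finite_of_ncard_ne_zero
    rw [h]
    exact (Units.torsionOrder_pos M).ne'
  have hsub : S ⊆ (fun u : (𝓞 M)ˣ => (u : 𝓞 M) * β) '' {u : (𝓞 M)ˣ | (u : 𝓞 M) * β ∈ cone M} := by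
    intro γ hγ
    obtain ⟨h1, u, hu⟩ := hS γ hγ
    exact ⟨u, by show (u : 𝓞 M) * β ∈ cone M; rw [← hu]; exact h1, hu.symm⟩
  refine ⟨(hfin.image _).subset hsub, ?_⟩
  calc S.ncard ≤ _ := Set.ncard_le_ncard hsub (hfin.image _)
    _ ≤ _ := Set.ncard_image_le hfin
    _ = _ := h

lemma nrm_eq (β : 𝓞 M) : nrm β = (Ideal.absNorm (Ideal.span {β} : Ideal (𝓞 M)) : ℝ) := by
  rw [Ideal.absNorm_span_singleton, nrm, Int.abs_eq_natAbs]
  simp

theorem t_CUB : S_CUB := by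
  intro M _ _
  obtain ⟨C, hC1, hC⟩ := Pool.Agent.TH55.J3092.princUnif (Module.finrank ℚ M)
  have hcf := Pool.Agent.TH938.J3088.coneFacts
  set d : ℝ := ((|discr M| : ℤ) : ℝ) ^ (1 / 2 : ℝ) with hd
  set R : ℝ := (Set.ncard {I : Ideal (𝓞 M) | I ≠ ⊥ ∧ (Ideal.absNorm I : ℝ) ≤ C * d} : ℝ) with hR
  have hd0 : 0 ≤ d := by
    rw [hd]; positivity
  have hR0 : 0 ≤ R := by rw [hR]; positivity
  have hK0 : 0 ≤ (Units.torsionOrder M : ℝ) * (C * d * R) := by positivity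
  refine ⟨(Units.torsionOrder M : ℝ) * (C * d * R) + 1, by linarith, ?_⟩
  intro 𝔟 hb Z hZ
  have hNpos : 0 < Ideal.absNorm 𝔟 := by
    rw [Nat.pos_iff_ne_zero, Ne, Ideal.absNorm_eq_zero_iff]
    exact hb
  have hN : (0 : ℝ) < Ideal.absNorm 𝔟 := by exact_mod_cast hNpos
  rcases lt_or_ge Z (Ideal.absNorm 𝔟 : ℝ) with hlt | hge
  · have hempty : {α : 𝓞 M | α ∈ cone M ∧ α ∈ 𝔟 ∧ nrm α ≤ Z} = ∅ := by
      rw [Set.eq_empty_iff_forall_notMem]
      rintro α ⟨h1, h2, h3⟩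
      have h4 : α ≠ 0 := (hcf M).2.1 α h1
      have h5 : 𝔟 ∣ Ideal.span {α} := by
        rw [Ideal.dvd_span_singleton]; exact h2
      have h6 : Ideal.absNorm 𝔟 ∣ Ideal.absNorm (Ideal.span {α} : Ideal (𝓞 M)) :=
        Ideal.absNorm_dvd_absNorm_of_le (Ideal.le_of_dvd h5)
      have h7 : Ideal.absNorm (Ideal.span {α} : Ideal (𝓞 M)) ≠ 0 := by
        rw [Ne, Ideal.absNorm_eq_zero_iff, Ideal.span_singleton_eq_bot]
        exact h4
      have h8 : Ideal.absNorm 𝔟 ≤ Ideal.absNorm (Ideal.span {α} : Ideal (𝓞 M)) :=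
        Nat.le_of_dvd (Nat.pos_of_ne_zero h7) h6
      have h9 : (Ideal.absNorm 𝔟 : ℝ) ≤ nrm α := by
        rw [nrm_eq]; exact_mod_cast h8
      linarith
    rw [hempty, Set.ncard_empty]
    push_cast
    positivity
  · set Y : ℝ := Z / Ideal.absNorm 𝔟 with hY
    have hY1 : 1 ≤ Y := by rw [hY, le_div_iff₀ hN]; linarith
    have hNY : (Ideal.absNorm 𝔟 : ℝ) * Y = Z := by rw [hY]; field_simp
    set S : Set (𝓞 M) := {α : 𝓞 M | α ∈ cone M ∧ α ∈ 𝔟 ∧ nrm α ≤ Z} with hS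
    set T : Set (Ideal (𝓞 M)) := {I : Ideal (𝓞 M) | I ≠ ⊥ ∧ 𝔟 ∣ I ∧ (∃ x, I = Ideal.span {x}) ∧
        (Ideal.absNorm I : ℝ) ≤ Ideal.absNorm 𝔟 * Y} with hT
    have hSfin : S.Finite := ((hcf M).1 Z).subset fun α hα => ⟨hα.1, hα.2.2⟩
    have hTfin : T.Finite := by
      refine (Ideal.finite_setOfPred_absNorm_le (S := 𝓞 M) ⌊Z⌋₊).subset ?_
      rintro I ⟨-, -, -, h⟩
      rw [hNY] at h
      exact Nat.le_floor h
    have h1 : S.ncard ≤ Units.torsionOrder M * T.ncard := by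
      refine ncard_le_mul S T hSfin hTfin (fun α => Ideal.span {α}) _ ?_ ?_
      · rintro α ⟨h1, h2, h3⟩
        refine ⟨?_, ?_, ⟨α, rfl⟩, ?_⟩
        · rw [Ne, Ideal.span_singleton_eq_bot]
          exact (hcf M).2.1 α h1
        · rw [Ideal.dvd_span_singleton]; exact h2
        · rw [hNY, ← nrm_eq]; exact h3
      · rintro α ⟨h1, h2, h3⟩
        refine (cone_le M hcf α ((hcf M).2.1 α h1) _ ?_).2
        rintro γ ⟨hγ, hγ2⟩
        refine ⟨hγ.1, ?_⟩
        obtain ⟨u, hu⟩ := Ideal.span_singleton_eq_span_singleton.1 hγ2.symm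
        exact ⟨u, by rw [← hu, mul_comm]⟩
    have h2 := hC M rfl 𝔟 hb Y hY1
    have h3 : (S.ncard : ℝ) ≤ (Units.torsionOrder M : ℝ) * (T.ncard : ℝ) := by exact_mod_cast h1
    have h4 : (T.ncard : ℝ) ≤ C * d * Y * R := h2
    calc (S.ncard : ℝ) ≤ (Units.torsionOrder M : ℝ) * (C * d * Y * R) :=
          h3.trans (mul_le_mul_of_nonneg_left h4 (Nat.cast_nonneg _))
      _ = (Units.torsionOrder M : ℝ) * (C * d * R) * Y := by ring
      _ ≤ ((Units.torsionOrder M : ℝ) * (C * d * R) + 1) * Y := by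
          apply mul_le_mul_of_nonneg_right _ (by linarith)
          linarith
      _ = ((Units.torsionOrder M : ℝ) * (C * d * R) + 1) * Z / Ideal.absNorm 𝔟 := by
          rw [hY]; ring

end Pool.Agent.H419.RM.CUB
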