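import Pool.Agent.H419.RM.Stm
import Pool.Graph.R_seed8.TH626.J3090
import Pool.Graph.R_seed8.TH263.J3086
import Pool.Graph.R_seed8.TH914.J3087
import Pool.Graph.R_seed8.TH938.J3088

set_option autoImplicit false

open NumberField Filter Topology
open Pool.Agent.TH444.ML Pool.Agent.H419.LT Pool.Agent.TH626.J3090

namespace Pool.Agent.H419.RM.DIV

section

variable {M E : Type} [Field M] [NumberField M] [Field E] [Algebra M E] [IsAlgClosed E]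

/-- every field is obtained -/
theorem exists_x {rep : ClassGroup (𝓞 M) → Ideal (𝓞 M)} (hrep : Rep M rep)
    {k : Ideal (𝓞 M) → 𝓞 M → ℕ} (hk : IsK M k) {Y : ℝ} {L : IntermediateField M E}
    (hL : L ∈ QS M E Y) : ∃ x : P M × 𝓞 M, x.2 ∈ S2 rep k Y x.1 ∧ fld E x = L := by
  have h5 := fiber_card Pool.Agent.TH914.J3087.kumP Pool.Agent.TH938.J3088.coneFacts hrep hk hL
  have h6 : {x : P M × 𝓞 M | x.2 ∈ S2 rep k Y x.1 ∧ fld E x = L}.Nonempty :=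
    Set.nonempty_of_ncard_ne_zero (by
      rw [h5]
      have := Units.torsionOrder_pos M
      omega)
  exact h6

/-- the ramified primes divide -/
theorem dvd_of (h1 : S_RAMB) {rep : ClassGroup (𝓞 M) → Ideal (𝓞 M)} (hrep : Rep M rep)
    {k : Ideal (𝓞 M) → 𝓞 M → ℕ} {Y : ℝ} {x : P M × 𝓞 M}
    (hx : x.2 ∈ S2 rep k Y x.1) {𝔓 : Ideal (𝓞 M)} (hP : 𝔓.IsPrime) (hP0 : 𝔓 ≠ ⊥)
    (h2 : (2 : 𝓞 M) ∉ 𝔓) (hU : ¬ Unr M (fld E x) 𝔓) :
    x.2 ∈ 𝔓 * (rep x.1.1) ^ 2 := by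
  obtain ⟨⟨hc, hS, hle⟩, hns⟩ := hx
  have hs := sr_sq E ((rr x.1 : 𝓞 M) * x.2)
  have hns' := (notSq_iff hs).2 hns
  have hfr : Module.finrank M (IntermediateField.adjoin M {sr E ((rr x.1 : 𝓞 M) * x.2)}) = 2 :=
    (Pool.Agent.TH914.J3087.kumP M E rep hrep).2.2 _ _ hs hns'
  obtain ⟨hβ, 𝔡, h𝔡, hspan⟩ := (sqf_unit (rr x.1)).2 hS
  have hfin : FiniteDimensional M (IntermediateField.adjoin M {sr E ((rr x.1 : 𝓞 M) * x.2)}) :=
    FiniteDimensional.of_finrank_pos (by omega)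
  have hnf : NumberField (IntermediateField.adjoin M {sr E ((rr x.1 : 𝓞 M) * x.2)}) :=
    NumberField.of_module_finite M _
  have hsL : sr E ((rr x.1 : 𝓞 M) * x.2) ∈
      IntermediateField.adjoin M {sr E ((rr x.1 : 𝓞 M) * x.2)} :=
    IntermediateField.mem_adjoin_simple_self M _
  have hdvd : 𝔓 ∣ 𝔡 := by
    by_contra hnd
    apply hU
    exact h1 M (IntermediateField.adjoin M {sr E ((rr x.1 : 𝓞 M) * x.2)}) ⟨_, hsL⟩
      ((rr x.1 : 𝓞 M) * x.2) 𝔡 (rep x.1.1) 𝔓 hfr (Subtype.ext (by simpa using hs))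
      (fun y hy => hns' y (by
        have := congrArg Subtype.val hy
        simpa using this)) hβ h𝔡 hspan hP hP0 h2 hnd
  have h7 : Ideal.span {x.2} = 𝔡 * (rep x.1.1) ^ 2 := by
    rw [← hspan, Ideal.span_singleton_mul_left_unit (rr x.1).isUnit]
  have h8 : x.2 ∈ 𝔡 * (rep x.1.1) ^ 2 := by
    rw [← h7]
    exact Ideal.mem_span_singleton_self _
  obtain ⟨𝔢, h𝔢⟩ := hdvd
  have h9 : 𝔡 * (rep x.1.1) ^ 2 ≤ 𝔓 * (rep x.1.1) ^ 2 := by
    rw [h𝔢]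
    exact Ideal.mul_mono_left Ideal.mul_le_left
  exact h9 h8

end

theorem t_DIV (h1 : S_RAMB) (h2 : S_CUB) : S_DIV := by
  classical
  intro M E _ _ _ _ _
  obtain ⟨rep, hrep⟩ := exists_rep M
  obtain ⟨k, hk⟩ := Pool.Agent.TH263.J3086.discQuad M
  have := finite_quot M
  have : Fintype (P M) := Fintype.ofFinite _
  obtain ⟨C, hC0, hC⟩ := h2 M
  have h3 := Pool.Agent.TH938.J3088.coneFacts
  refine ⟨Fintype.card (P M) * (C * (4 ^ Module.finrank ℚ M) ^ 2), ?_⟩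
  intro 𝔓 hP hP0 h2P Y hY
  set T : P M → Set (𝓞 M) := fun p => {α : 𝓞 M | α ∈ cone M ∧ α ∈ 𝔓 * (rep p.1) ^ 2 ∧
    nrm α ≤ Y * ((4 ^ Module.finrank ℚ M) ^ 2 * (Ideal.absNorm (rep p.1) : ℝ) ^ 2)} with hTdef
  have hTfin : ∀ p, (T p).Finite := by
    intro p
    refine ((h3 M).1 (Y * ((4 ^ Module.finrank ℚ M) ^ 2 *
      (Ideal.absNorm (rep p.1) : ℝ) ^ 2))).subset ?_
    rintro α ⟨h4, -, h5⟩
    exact ⟨h4, h5⟩
  have hNP : (0 : ℝ) < Ideal.absNorm 𝔓 := by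
    have : Ideal.absNorm 𝔓 ≠ 0 := fun h => hP0 (Ideal.absNorm_eq_zero_iff.1 h)
    exact_mod_cast Nat.pos_of_ne_zero this
  have hTcard : ∀ p, ((T p).ncard : ℝ) ≤
      (C * (4 ^ Module.finrank ℚ M) ^ 2) * Y / Ideal.absNorm 𝔓 := by
    intro p
    have hr0 := rep_ne_bot hrep p.1
    have hb : 𝔓 * (rep p.1) ^ 2 ≠ ⊥ := by
      have : 𝔓 * (rep p.1) ^ 2 ≠ 0 := mul_ne_zero hP0 (pow_ne_zero 2 hr0)
      exact this
    have hN : (0 : ℝ) < Ideal.absNorm (rep p.1) := by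
      have : Ideal.absNorm (rep p.1) ≠ 0 := fun h => hr0 (Ideal.absNorm_eq_zero_iff.1 h)
      exact_mod_cast Nat.pos_of_ne_zero this
    refine (hC (𝔓 * (rep p.1) ^ 2) hb _ (by positivity)).trans (le_of_eq ?_)
    rw [map_mul, map_pow]
    push_cast
    field_simp
  -- the set is contained in the image
  have hsub : {L : IntermediateField M E | L ∈ QS M E Y ∧ ¬ Unr M L 𝔓} ⊆
      ⋃ p : P M, (fun α : 𝓞 M => fld E ((p, α) : P M × 𝓞 M)) '' (T p) := by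
    rintro L ⟨hL, hU⟩
    obtain ⟨x, hx, rfl⟩ := exists_x hrep hk hL
    have h6 := dvd_of (E := E) h1 hrep hx hP hP0 h2P hU
    rw [Set.mem_iUnion]
    refine ⟨x.1, x.2, ⟨hx.1.1, h6, ?_⟩, rfl⟩
    exact hx.1.2.2.trans (mul_le_mul_of_nonneg_left (wt_le hk (rep_ne_bot hrep x.1.1) _) hY)
  have hfinU : (⋃ p : P M, (fun α : 𝓞 M => fld E ((p, α) : P M × 𝓞 M)) '' (T p)).Finite :=
    Set.finite_iUnion fun p => (hTfin p).image _
  have hcard : ({L : IntermediateField M E | L ∈ QS M E Y ∧ ¬ Unr M L 𝔓}.ncard : ℝ) ≤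
      ∑ p : P M, ((T p).ncard : ℝ) := by
    have h7 := Set.ncard_le_ncard hsub hfinU
    have h8 : (⋃ p : P M, (fun α : 𝓞 M => fld E ((p, α) : P M × 𝓞 M)) '' (T p)).ncard ≤
        ∑ p : P M, (T p).ncard := by
      refine (Set.ncard_iUnion_le_of_fintype _).trans (Finset.sum_le_sum fun p _ => ?_)
      exact Set.ncard_image_le (hTfin p)
    exact_mod_cast h7.trans h8
  refine hcard.trans ((Finset.sum_le_sum fun p _ => hTcard p).trans (le_of_eq ?_))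
  rw [Finset.sum_const, Finset.card_univ, nsmul_eq_mul]
  ring

end Pool.Agent.H419.RM.DIV
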