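import Pool.Agent.H419.RM.Stm
import Pool.Graph.R_seed8.TH713.J3096

/-! # Ideals without prime divisors in a set of primes with a divergent sum (helper161) -/

set_option autoImplicit false

open NumberField Filter Topology

namespace Pool.Agent.H419.RM.IDC

open Pool.Agent.TH713.J3096 Ideal

variable {M : Type} [Field M] [NumberField M]

/-- the ideals without prime divisors in `W` -/
def Av (W : Finset (Ideal (𝓞 M))) : Set (Ideal (𝓞 M)) := {I | ∀ P ∈ W, ¬ P ∣ I}

theorem cnt_congr {A B : Set (Ideal (𝓞 M))} (h : ∀ I, I ≠ ⊥ → (I ∈ A ↔ I ∈ B)) (Z : ℝ) :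
    cnt A Z = cnt B Z := by
  unfold cnt
  congr 1
  ext I
  simp only [Set.mem_ofPred_eq]
  constructor
  · rintro ⟨h1, h2, h3⟩
    exact ⟨(h I h2).1 h1, h2, h3⟩
  · rintro ⟨h1, h2, h3⟩
    exact ⟨(h I h2).2 h1, h2, h3⟩

theorem dens_Av (κ : ℝ) (hκ : Dens (Set.univ : Set (Ideal (𝓞 M))) κ)
    (W : Finset (Ideal (𝓞 M))) : (∀ P ∈ W, P.IsPrime ∧ P ≠ ⊥) →
    Dens (Av W) (κ * ∏ P ∈ W, (1 - 1 / (absNorm P : ℝ))) := by
  classical
  induction W using Finset.induction_on with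
  | empty =>
    intro _
    have h1 : Av (∅ : Finset (Ideal (𝓞 M))) = Set.univ := by
      ext I
      simp [Av]
    rw [h1, Finset.prod_empty, mul_one]
    exact hκ
  | insert P W hPW ih =>
    intro hW
    have hG := ih (fun Q hQ => hW Q (Finset.mem_insert_of_mem hQ))
    obtain ⟨hPp, hP0⟩ := hW P (Finset.mem_insert_self P W)
    have hsub : mulS P (Av W) ⊆ Av W := by
      rintro I ⟨J, hJ, hJ0, rfl⟩ Q hQ hd
      obtain ⟨hQp, hQ0⟩ := hW Q (Finset.mem_insert_of_mem hQ)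
      have hne : Q ≠ P := by
        rintro rfl
        exact hPW hQ
      rcases (prime_of Q hQp hQ0).dvd_or_dvd hd with h3 | h3
      · exact not_dvd Q P hQp hQ0 hPp hP0 hne h3
      · exact hJ Q hQ h3
    have h1 := dens_diff hG (dens_mulS P hP0 hG) hsub
    have h3 : κ * ∏ Q ∈ W, (1 - 1 / (absNorm Q : ℝ)) -
        (κ * ∏ Q ∈ W, (1 - 1 / (absNorm Q : ℝ))) / (absNorm P : ℝ) =
        κ * ∏ Q ∈ insert P W, (1 - 1 / (absNorm Q : ℝ)) := by
      rw [Finset.prod_insert hPW]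
      ring
    rw [h3] at h1
    refine h1.congr fun Z => ?_
    congr 2
    refine cnt_congr (fun I hI => ?_) Z
    constructor
    · rintro ⟨h4, h5⟩ Q hQ hd
      rcases Finset.mem_insert.mp hQ with rfl | hQW
      · obtain ⟨J, rfl⟩ := hd
        refine h5 ⟨J, fun R hR hRJ => h4 R hR (hRJ.mul_left _), ?_, rfl⟩
        rintro rfl
        exact hI (mul_zero _)
      · exact h4 Q hQW hd
    · intro h4
      refine ⟨fun Q hQ => h4 Q (Finset.mem_insert_of_mem hQ), ?_⟩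
      rintro ⟨J, -, -, rfl⟩
      exact h4 P (Finset.mem_insert_self P W) (dvd_mul_right P J)

theorem t_IDC : S_IDC := by
  classical
  intro M _ _ W hW hns ε hε
  obtain ⟨κ, hκ⟩ := dens_univ (M := M)
  have hκ0 := dens_nonneg hκ
  have hex : ∃ Ps : Finset W, κ / ε < ∑ p ∈ Ps, (1 : ℝ) / (absNorm p.1 : ℝ) := by
    by_contra hcon
    push Not at hcon
    exact hns (summable_of_sum_le (fun p => by positivity) hcon)
  obtain ⟨Ps, hPs⟩ := hex
  have hW0 : ∀ P ∈ Ps.image Subtype.val, P ∈ W := by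
    intro P hP
    obtain ⟨p, -, rfl⟩ := Finset.mem_image.1 hP
    exact p.2
  refine ⟨Ps.image Subtype.val, hW0, ?_⟩
  have hd := dens_Av κ hκ (Ps.image Subtype.val) fun P hP => hW P (hW0 P hP)
  have hN2 : ∀ p : W, (2 : ℝ) ≤ (absNorm p.1 : ℝ) := by
    intro p
    exact_mod_cast two_le M p.1 (hW p.1 p.2).1 (hW p.1 p.2).2
  set S : ℝ := ∑ p ∈ Ps, (1 : ℝ) / (absNorm p.1 : ℝ) with hS
  have hprod : ∏ P ∈ Ps.image Subtype.val, (1 - 1 / (absNorm P : ℝ)) ≤ Real.exp (-S) := by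
    rw [Finset.prod_image fun x _ y _ h => Subtype.ext h, hS, ← Finset.sum_neg_distrib,
      Real.exp_sum]
    refine Finset.prod_le_prod (fun p _ => ?_) fun p _ => ?_
    · have h1 : 1 / (absNorm p.1 : ℝ) ≤ 1 / 2 := one_div_le_one_div_of_le (by norm_num) (hN2 p)
      linarith
    · have := Real.add_one_le_exp (-(1 / (absNorm p.1 : ℝ)))
      linarith
  have hdε : κ * ∏ P ∈ Ps.image Subtype.val, (1 - 1 / (absNorm P : ℝ)) < ε := by
    have h2 : κ < ε * (1 + S) := by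
      rw [div_lt_iff₀ hε] at hPs
      nlinarith
    have h3 : 1 + S ≤ Real.exp S := by
      have := Real.add_one_le_exp S
      linarith
    have h4 : κ < ε * Real.exp S := lt_of_lt_of_le h2 (mul_le_mul_of_nonneg_left h3 hε.le)
    refine lt_of_le_of_lt (mul_le_mul_of_nonneg_left hprod hκ0) ?_
    rw [Real.exp_neg, ← div_eq_mul_inv, div_lt_iff₀ (Real.exp_pos _)]
    exact h4
  have hev : ∀ᶠ Z : ℝ in atTop, (cnt (Av (Ps.image Subtype.val)) Z : ℝ) / Z < ε :=
    hd.eventually (gt_mem_nhds hdε)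
  filter_upwards [hev, eventually_gt_atTop 0] with Z hZ hZ0
  rw [div_lt_iff₀ hZ0] at hZ
  refine le_trans (le_of_eq ?_) hZ.le
  unfold cnt
  congr 2
  ext I
  simp only [Set.mem_ofPred_eq, Av]
  tauto

end Pool.Agent.H419.RM.IDC
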