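import Pool.Agent.H419.RM.Stm

/-!
# RM, task RAMA: `M(√α)` is ramified at the primes where `α` has odd valuation
-/

set_option autoImplicit false

open NumberField

namespace Pool.Agent.H419.RM.RAMA

open UniqueFactorizationMonoid

/-- the abstract statement -/
lemma core {A B : Type*} [CommRing A] [IsDedekindDomain A] [CommRing B] [IsDedekindDomain B]
    [Algebra A B] [Algebra.IsIntegral A B] (hinj : Function.Injective (algebraMap A B))
    (α : A) (s : B) (hs : s ^ 2 = algebraMap A B α) (hα : α ≠ 0) (d c P : Ideal A)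
    (hd : Squarefree d) (hdc : Ideal.span {α} = d * c ^ 2) (hP : P.IsPrime) (hP0 : P ≠ ⊥)
    (hPd : P ∣ d) (hred : IsReduced (B ⧸ P.map (algebraMap A B))) : False := by
  have : FaithfulSMul A B := (faithfulSMul_iff_algebraMap_injective A B).2 hinj
  have hPm : P.IsMaximal := hP.isMaximal hP0
  obtain ⟨Q, hQm, hQ⟩ := Ideal.exists_maximal_ideal_liesOver_of_isIntegral (S := B) P
  have hover : P = Q.comap (algebraMap A B) := hQ.over
  have hmap0 : ∀ I : Ideal A, I ≠ 0 → I.map (algebraMap A B) ≠ 0 := by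
    intro I hI h
    apply hI
    exact (Ideal.map_eq_bot_iff_of_injective hinj).1 h
  have hPB0 : P.map (algebraMap A B) ≠ 0 := hmap0 P hP0
  have hPQ : P.map (algebraMap A B) ≤ Q := by
    rw [Ideal.map_le_iff_le_comap, ← hover]
  have hQ0 : Q ≠ 0 := by
    intro h
    rw [h] at hPQ
    exact hPB0 (le_antisymm hPQ bot_le)
  have hQp : Prime Q := Ideal.prime_of_isPrime hQ0 hQm.isPrime
  have hQirr : Irreducible Q := hQp.irreducible
  -- `P B` is squarefree
  have hsq : Squarefree (P.map (algebraMap A B)) := by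
    have hr : (P.map (algebraMap A B)).IsRadical :=
      (Ideal.isRadical_iff_quotient_reduced _).2 hred
    apply IsRadical.squarefree hPB0
    intro n Y hY
    rw [Ideal.dvd_iff_le] at hY ⊢
    intro y hy
    exact hr ⟨n, hY (Ideal.pow_mem_pow hy n)⟩
  let v : Ideal B → ℕ := fun I => (normalizedFactors I).count Q
  have hvmul : ∀ I J : Ideal B, I ≠ 0 → J ≠ 0 → v (I * J) = v I + v J := by
    intro I J hI hJ
    show Multiset.count Q _ = _
    rw [normalizedFactors_mul hI hJ, Multiset.count_add]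
  have hvP : v (P.map (algebraMap A B)) = 1 := by
    have h1 : v (P.map (algebraMap A B)) ≤ 1 := by
      have := (squarefree_iff_nodup_normalizedFactors hPB0).1 hsq
      exact Multiset.nodup_iff_count_le_one.1 this Q
    have h2 : Q ∈ normalizedFactors (P.map (algebraMap A B)) := by
      rw [Ideal.mem_normalizedFactors_iff hPB0]
      exact ⟨hQm.isPrime, hPQ⟩
    have h3 : 0 < v (P.map (algebraMap A B)) := Multiset.count_pos.2 h2
    omega
  obtain ⟨d1, hd1⟩ := hPd
  have hspan0 : Ideal.span {α} ≠ 0 := by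
    intro h
    exact hα (Ideal.span_singleton_eq_bot.1 h)
  have hd0 : d ≠ 0 := by
    intro h
    rw [h, zero_mul] at hdc
    exact hspan0 hdc
  have hc0 : c ≠ 0 := by
    intro h
    rw [h, zero_pow two_ne_zero, mul_zero] at hdc
    exact hspan0 hdc
  have hd10 : d1 ≠ 0 := by
    intro h
    rw [h, mul_zero] at hd1
    exact hd0 hd1
  have hPd1 : ¬ P ∣ d1 := by
    rintro ⟨e, he⟩
    have : P * P ∣ d := ⟨e, by rw [hd1, he, mul_assoc]⟩
    have h2 := hd P this
    exact hP.ne_top (Ideal.isUnit_iff.1 h2)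
  have hvd1 : v (d1.map (algebraMap A B)) = 0 := by
    apply Multiset.count_eq_zero.2
    intro h
    rw [Ideal.mem_normalizedFactors_iff (hmap0 d1 hd10)] at h
    apply hPd1
    rw [Ideal.dvd_iff_le, hover, ← Ideal.map_le_iff_le_comap]
    exact h.2
  have hvd : v (d.map (algebraMap A B)) = 1 := by
    rw [hd1, Ideal.map_mul, hvmul _ _ hPB0 (hmap0 d1 hd10), hvP, hvd1]
  have hs0 : Ideal.span {s} ≠ 0 := by
    intro h
    have h1 := Ideal.span_singleton_eq_bot.1 h
    rw [h1, zero_pow two_ne_zero] at hs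
    exact hα (hinj (by rw [← hs, map_zero]))
  have hfin : Ideal.span {s} * Ideal.span {s} =
      d.map (algebraMap A B) * (c.map (algebraMap A B) * c.map (algebraMap A B)) := by
    have h1 : (Ideal.span {α}).map (algebraMap A B) = Ideal.span {s} * Ideal.span {s} := by
      rw [Ideal.map_span, Set.image_singleton, ← hs, Ideal.span_singleton_mul_span_singleton, sq]
    rw [← h1, hdc, Ideal.map_mul, sq, Ideal.map_mul]
  have h1 := congrArg v hfin
  rw [hvmul _ _ hs0 hs0, hvmul _ _ (hmap0 d hd0) (mul_ne_zero (hmap0 c hc0) (hmap0 c hc0)),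
    hvmul _ _ (hmap0 c hc0) (hmap0 c hc0), hvd] at h1
  omega

theorem t_RAMA : S_RAMA := by
  intro M L _ _ _ _ _ s α d c P hs hα hd hdc hP hP0 hPd hU
  have hint : IsIntegral ℤ s := by
    apply IsIntegral.of_pow (n := 2) (by norm_num)
    rw [hs]
    exact (α.isIntegral_coe).map (IsScalarTower.toAlgHom ℤ M L)
  have hinj : Function.Injective (algebraMap (𝓞 M) (𝓞 L)) :=
    FaithfulSMul.algebraMap_injective (𝓞 M) (𝓞 L)
  have hs' : (⟨s, hint⟩ : 𝓞 L) ^ 2 = algebraMap (𝓞 M) (𝓞 L) α := by
    apply RingOfIntegers.ext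
    exact hs
  exact core hinj α ⟨s, hint⟩ hs' hα d c P hd hdc hP hP0 hPd hU

end Pool.Agent.H419.RM.RAMA
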