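import Pool.Agent.H419.RM.Stm

set_option autoImplicit false

/-! `RM-TOW`: unramified in a tower. -/

open NumberField

namespace Pool.Agent.H419.RM.TOW

/-- reduced quotient and squarefree ideal -/
theorem red_iff {A : Type} [CommRing A] [IsDedekindDomain A] (I : Ideal A) (hI : I ≠ ⊥) :
    IsReduced (A ⧸ I) ↔ Squarefree I := by
  rw [← Ideal.isRadical_iff_quotient_reduced, ← isRadical_iff_squarefree_of_ne_zero hI]
  constructor
  · intro h n X hX
    rw [Ideal.dvd_iff_le] at hX ⊢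
    intro x hx
    exact h ⟨n, hX (Ideal.pow_mem_pow hx n)⟩
  · rintro h x ⟨n, hn⟩
    have h1 : I ∣ Ideal.span {x} ^ n := by
      rw [Ideal.dvd_iff_le, Ideal.span_singleton_pow, Ideal.span_singleton_le_iff_mem]
      exact hn
    have h2 := h n _ h1
    rwa [Ideal.dvd_iff_le, Ideal.span_singleton_le_iff_mem] at h2

theorem t_TOW : S_TOW := by
  intro K M L _ _ _ _ _ _ _ _ _ _ 𝔭 hp hp0
  have hKM : Function.Injective (algebraMap (𝓞 K) (𝓞 M)) :=
    RingOfIntegers.algebraMap.injective K M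
  have hML : Function.Injective (algebraMap (𝓞 M) (𝓞 L)) :=
    RingOfIntegers.algebraMap.injective M L
  have hJ : 𝔭.map (algebraMap (𝓞 K) (𝓞 L)) =
      (𝔭.map (algebraMap (𝓞 K) (𝓞 M))).map (algebraMap (𝓞 M) (𝓞 L)) := by
    rw [Ideal.map_map, ← IsScalarTower.algebraMap_eq]
  obtain ⟨I, hI⟩ : ∃ I, I = 𝔭.map (algebraMap (𝓞 K) (𝓞 M)) := ⟨_, rfl⟩
  have hI0 : I ≠ ⊥ := by
    rw [hI, Ne, Ideal.map_eq_bot_iff_of_injective hKM]
    exact hp0
  have hJ0 : I.map (algebraMap (𝓞 M) (𝓞 L)) ≠ ⊥ := by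
    rw [Ne, Ideal.map_eq_bot_iff_of_injective hML]
    exact hI0
  rw [← hI] at hJ
  constructor
  · intro h
    rw [Unr, hJ, red_iff _ hJ0] at h
    refine ⟨?_, ?_⟩
    · rw [Unr, ← hI, red_iff _ hI0, squarefree_iff_no_irreducibles hI0]
      intro P hP hPP
      have hPp : P.IsPrime := Ideal.isPrime_of_prime hP.prime
      have hPm : P.IsMaximal := hPp.isMaximal hP.ne_zero
      obtain ⟨Q, hQ, hQP⟩ := Ideal.exists_maximal_ideal_liesOver_of_isIntegral (S := 𝓞 L) P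
      have h1 : P.map (algebraMap (𝓞 M) (𝓞 L)) * P.map (algebraMap (𝓞 M) (𝓞 L)) ∣
          I.map (algebraMap (𝓞 M) (𝓞 L)) := by
        rw [← Ideal.map_mul, Ideal.dvd_iff_le]
        exact Ideal.map_mono (Ideal.dvd_iff_le.1 hPP)
      have h2 := h _ h1
      rw [Ideal.isUnit_iff] at h2
      apply hQ.ne_top
      rw [eq_top_iff, ← h2, Ideal.map_le_iff_le_comap]
      exact hQP.over.le
    · intro P hP hPc
      have hIP : I ≤ P := by
        rw [hI, Ideal.map_le_iff_le_comap, hPc]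
      have hP0 : P.map (algebraMap (𝓞 M) (𝓞 L)) ≠ ⊥ := by
        rw [Ne, Ideal.map_eq_bot_iff_of_injective hML]
        intro h0
        rw [h0, le_bot_iff] at hIP
        exact hI0 hIP
      rw [Unr, red_iff _ hP0]
      refine Squarefree.squarefree_of_dvd ?_ h
      rw [Ideal.dvd_iff_le]
      exact Ideal.map_mono hIP
  · rintro ⟨h1, h2⟩
    rw [Unr, hJ, red_iff _ hJ0, squarefree_iff_no_irreducibles hJ0]
    rw [Unr, ← hI, red_iff _ hI0] at h1
    intro Q hQ hQQ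
    have hQp : Q.IsPrime := Ideal.isPrime_of_prime hQ.prime
    obtain ⟨P, hPdef⟩ : ∃ P, P = Q.comap (algebraMap (𝓞 M) (𝓞 L)) := ⟨_, rfl⟩
    have hPp : P.IsPrime := by
      rw [hPdef]
      exact Ideal.comap_isPrime _ _
    have hIP : I ≤ P := by
      rw [hPdef, ← Ideal.map_le_iff_le_comap, ← Ideal.dvd_iff_le]
      exact (dvd_mul_right Q Q).trans hQQ
    have hPc : P.comap (algebraMap (𝓞 K) (𝓞 M)) = 𝔭 := by
      have hm : 𝔭.IsMaximal := hp.isMaximal hp0
      symm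
      apply hm.eq_of_le
      · exact (Ideal.comap_isPrime (algebraMap (𝓞 K) (𝓞 M)) P).ne_top
      · rw [← Ideal.map_le_iff_le_comap, ← hI]
        exact hIP
    have hP0 : P.map (algebraMap (𝓞 M) (𝓞 L)) ≠ ⊥ := by
      rw [Ne, Ideal.map_eq_bot_iff_of_injective hML]
      intro h0
      rw [h0, le_bot_iff] at hIP
      exact hI0 hIP
    have hsq := h2 P hPp hPc
    rw [Unr, red_iff _ hP0] at hsq
    obtain ⟨b, hb⟩ : P ∣ I := Ideal.dvd_iff_le.2 hIP
    have hPb : ¬ P ∣ b := by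
      rintro ⟨c, hc⟩
      have h3 : P * P ∣ I := ⟨c, by rw [hb, hc, mul_assoc]⟩
      have h4 := h1 P h3
      rw [Ideal.isUnit_iff] at h4
      exact hPp.ne_top h4
    have hQb : ¬ Q ∣ b.map (algebraMap (𝓞 M) (𝓞 L)) := by
      intro h3
      apply hPb
      rw [Ideal.dvd_iff_le] at h3 ⊢
      rw [hPdef, ← Ideal.map_le_iff_le_comap]
      exact h3
    have h5 : Q ^ 2 ∣ P.map (algebraMap (𝓞 M) (𝓞 L)) * b.map (algebraMap (𝓞 M) (𝓞 L)) := by
      rw [← Ideal.map_mul, ← hb, pow_two]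
      exact hQQ
    have h6 := hQ.prime.pow_dvd_of_dvd_mul_right 2 hQb h5
    rw [pow_two] at h6
    exact hQ.not_isUnit (hsq Q h6)

end Pool.Agent.H419.RM.TOW
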