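import Pool.Agent.H419.RM.Stm
import Pool.Graph.R_seed8.TH263.J3086
import Pool.Graph.R_seed8.TH914.J3087
import Pool.Graph.R_seed8.TH293.J3093

/-! # UPB: quadratic extensions unramified at the primes of a finite set -/

set_option autoImplicit false

open NumberField Filter Topology
open Pool.Agent.TH444.ML Pool.Agent.H419.LT

namespace Pool.Agent.H419.RM.UPB

open Pool.Agent.TH293.J3093 (exists_par exists_rep exists_gen)

theorem finI (M : Type) [Field M] [NumberField M] (Z : ℝ) :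
    {I : Ideal (𝓞 M) | (Ideal.absNorm I : ℝ) ≤ Z}.Finite := by
  refine (Ideal.finite_setOfPred_absNorm_le (S := 𝓞 M) ⌊Z⌋₊).subset ?_
  intro I hI
  exact Nat.le_floor hI

theorem t_UPB (h1 : S_RAMA) : S_UPB := by
  classical
  intro M E _ _ _ _ _
  obtain ⟨k, hk⟩ := Pool.Agent.TH263.J3086.discQuad M
  obtain ⟨rep, hrep, hrep0, hinj, -⟩ := exists_rep M
  obtain ⟨kum1, -, -⟩ := Pool.Agent.TH914.J3087.kumP M E rep hrep
  obtain ⟨par, hpar⟩ := exists_par M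
  obtain ⟨w, hw⟩ := exists_gen M
  set D := Module.finrank ℚ M with hD
  let W := Bool × (Fin (Units.rank M) → Bool)
  obtain ⟨C, hC⟩ : ∃ C : ℝ, C = (Fintype.card (ClassGroup (𝓞 M)) : ℝ) * Fintype.card W + 4 ^ D :=
    ⟨_, rfl⟩
  have h4D : (0 : ℝ) < 4 ^ D := by positivity
  have hC1 : (Fintype.card (ClassGroup (𝓞 M)) : ℝ) * Fintype.card W ≤ C := by linarith
  have hC2 : (4 : ℝ) ^ D ≤ C := by
    have : (0 : ℝ) ≤ (Fintype.card (ClassGroup (𝓞 M)) : ℝ) * Fintype.card W := by positivity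
    linarith
  refine ⟨C, by linarith, fun W₀ hW₀ Y hY => ?_⟩
  set d : ℝ := ((|discr M| : ℤ) : ℝ) with hd
  have hd1 : 1 ≤ d := Pool.Agent.TH293.J3093.disc_pos M
  -- data of an extension
  have hdata : ∀ L : IntermediateField M E, ∃ (C : ClassGroup (𝓞 M)) (α : 𝓞 M) (s : E)
      (𝔡 : Ideal (𝓞 M)), Module.finrank M L = 2 → α ≠ 0 ∧ Squarefree 𝔡 ∧
        Ideal.span {α} = 𝔡 * (rep C) ^ 2 ∧
        s ^ 2 = algebraMap M E (α : M) ∧ (∀ x : M, algebraMap M E x ≠ s) ∧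
        L = IntermediateField.adjoin M {s} := by
    intro L
    by_cases h : Module.finrank M L = 2
    · obtain ⟨C, α, s, ⟨h5, 𝔡, h6, h7⟩, h8⟩ := kum1 L h
      exact ⟨C, α, s, 𝔡, fun _ => ⟨h5, h6, h7, h8⟩⟩
    · exact ⟨ClassGroup.mk0 1, 0, 0, ⊥, fun h' => absurd h' h⟩
  choose cl al sq dd hdat using hdata
  obtain ⟨S, hS⟩ : ∃ S : Set (Ideal (𝓞 M)), S = {I : Ideal (𝓞 M) | I ≠ ⊥ ∧
    (∀ 𝔓 ∈ W₀, ¬ 𝔓 ∣ I) ∧ (Ideal.absNorm I : ℝ) ≤ C * Y} := ⟨_, rfl⟩
  have hSfin : S.Finite := by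
    rw [hS]
    exact (finI M (C * Y)).subset fun I hI => hI.2.2
  rw [← hS]
  obtain ⟨Q, hQ⟩ : ∃ Q : Set (IntermediateField M E), Q = {L : IntermediateField M E |
    L ∈ QS M E Y ∧ ∀ 𝔓 ∈ W₀, Unr M L 𝔓} := ⟨_, rfl⟩
  rw [← hQ]
  have hLP : ∀ L ∈ Q, dd L ∈ S := by
    intro L hLQ
    rw [hQ] at hLQ
    obtain ⟨⟨hL2, hNF, hLd⟩, hunr⟩ := hLQ
    obtain ⟨hα0, hsf, h𝔡, hs, hsM, hLs⟩ := hdat L hL2
    have h𝔡0 : dd L ≠ 0 := hsf.ne_zero
    have hsL : sq L ∈ L := by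
      have h5 := IntermediateField.mem_adjoin_simple_self M (sq L)
      rw [← hLs] at h5
      exact h5
    have hs2 : (⟨sq L, hsL⟩ : L) ^ 2 = algebraMap M L ((al L : 𝓞 M) : M) := by
      apply Subtype.ext
      exact hs
    have hdisc := hk.disc L (⟨sq L, hsL⟩ : L) (al L) (dd L) (rep (cl L)) hL2 hs2
      (by
        intro x hx
        exact hsM x (congrArg Subtype.val hx)) hα0 hsf h𝔡
    have hk1 := hk.le (rep (cl L)) (al L) (hrep0 _)
    rw [← hD] at hdisc hk1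
    have hdiscR : ((|discr L| : ℤ) : ℝ) * (k (rep (cl L)) (al L) : ℝ) ^ 2 =
        4 ^ D * d ^ 2 * Ideal.absNorm (dd L) := by
      have e1 : ((|discr L| : ℤ) : ℝ) = ((discr L).natAbs : ℝ) := by
        rw [Int.abs_eq_natAbs]
        exact Int.cast_natCast _
      have e2 : d = ((discr M).natAbs : ℝ) := by
        rw [hd, Int.abs_eq_natAbs]
        exact Int.cast_natCast _
      rw [e1, e2]
      exact_mod_cast hdisc
    have hkR : (k (rep (cl L)) (al L) : ℝ) ≤ 4 ^ D := by exact_mod_cast hk1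
    have hk0 : (0 : ℝ) ≤ (k (rep (cl L)) (al L) : ℝ) := Nat.cast_nonneg _
    have hLd' : ((|discr L| : ℤ) : ℝ) ≤ Y * d ^ 2 := by
      have e3 : ((discr M : ℤ) : ℝ) ^ 2 = d ^ 2 := by
        rw [hd]
        push_cast
        rw [sq_abs]
      rw [← e3]
      exact hLd
    have hL0 : (0 : ℝ) ≤ ((|discr L| : ℤ) : ℝ) := by positivity
    have hNd : (Ideal.absNorm (dd L) : ℝ) ≤ 4 ^ D * Y := by
      have hd2 : (0 : ℝ) < d ^ 2 := by positivity
      have e4 : 4 ^ D * d ^ 2 * (Ideal.absNorm (dd L) : ℝ) ≤ 4 ^ D * d ^ 2 * (4 ^ D * Y) := by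
        rw [← hdiscR]
        calc ((|discr L| : ℤ) : ℝ) * (k (rep (cl L)) (al L) : ℝ) ^ 2
            ≤ (Y * d ^ 2) * (4 ^ D) ^ 2 := by gcongr
          _ = 4 ^ D * d ^ 2 * (4 ^ D * Y) := by ring
      exact le_of_mul_le_mul_left e4 (by positivity)
    rw [hS]
    refine ⟨h𝔡0, fun 𝔓 h𝔓 hdvd => ?_, ?_⟩
    · exact h1 M L ⟨sq L, hsL⟩ (al L) (dd L) (rep (cl L)) 𝔓 hs2 hα0 hsf h𝔡 (hW₀ 𝔓 h𝔓).1
        (hW₀ 𝔓 h𝔓).2 hdvd (hunr 𝔓 h𝔓)
    · exact hNd.trans (mul_le_mul_of_nonneg_right hC2 hY)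
  -- the map
  let Φ : IntermediateField M E → ClassGroup (𝓞 M) × W × Ideal (𝓞 M) :=
    fun L => (cl L, par (w (al L)), dd L)
  let T : Finset (ClassGroup (𝓞 M) × W × Ideal (𝓞 M)) :=
    Finset.univ ×ˢ (Finset.univ ×ˢ hSfin.toFinset)
  have hmaps : ∀ L ∈ Q, Φ L ∈ (T : Set (ClassGroup (𝓞 M) × W × Ideal (𝓞 M))) := by
    intro L hL
    rw [Finset.mem_coe, Finset.mem_product, Finset.mem_product]
    exact ⟨Finset.mem_univ _, Finset.mem_univ _, hSfin.mem_toFinset.2 (hLP L hL)⟩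
  have hinjΦ : Set.InjOn Φ Q := by
    intro L hLQ L' hLQ' hΦ
    rw [hQ] at hLQ hLQ'
    have hL2 := hLQ.1.1
    have hL2' := hLQ'.1.1
    obtain ⟨hα0, -, hsp, hs, -, hLs⟩ := hdat L hL2
    obtain ⟨hα0', -, hsp', hs', -, hLs'⟩ := hdat L' hL2'
    have e0 : cl L = cl L' := (Prod.ext_iff.1 hΦ).1
    have e2 : par (w (al L)) = par (w (al L')) := (Prod.ext_iff.1 (Prod.ext_iff.1 hΦ).2).1
    have e0' : dd L = dd L' := (Prod.ext_iff.1 (Prod.ext_iff.1 hΦ).2).2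
    have e1 : Ideal.span {al L} = Ideal.span {al L'} := by rw [hsp, hsp', e0, e0']
    obtain ⟨v, hv⟩ := hpar _ _ e2
    have e3 := hw _ _ e1
    rw [hv] at e3
    push_cast at e3
    have e4 : al L' = (v : 𝓞 M) ^ 2 * al L := by
      have hwu : ((w (al L) : (𝓞 M)ˣ) : 𝓞 M) ≠ 0 := Units.ne_zero _
      apply mul_right_cancel₀ hwu
      rw [e3]
      ring
    have e5 : (sq L') ^ 2 = (algebraMap M E ((v : 𝓞 M) : M) * sq L) ^ 2 := by
      rw [mul_pow, hs, hs', e4, ← map_pow, ← map_mul]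
      push_cast
      rfl
    have hv0 : ((v : 𝓞 M) : M) ≠ 0 := by
      have : (v : 𝓞 M) ≠ 0 := Units.ne_zero v
      exact fun h => this (RingOfIntegers.ext h)
    have hsub : ∀ (x : M) (y z : E), x ≠ 0 → y = algebraMap M E x * z →
        IntermediateField.adjoin M {y} = IntermediateField.adjoin M {z} := by
      intro x y z hx hy
      apply le_antisymm
      · rw [IntermediateField.adjoin_simple_le_iff, hy]
        exact mul_mem (IntermediateField.algebraMap_mem _ x)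
          (IntermediateField.mem_adjoin_simple_self M z)
      · rw [IntermediateField.adjoin_simple_le_iff]
        have : z = algebraMap M E x⁻¹ * y := by
          rw [hy, ← mul_assoc, ← map_mul, inv_mul_cancel₀ hx, map_one, one_mul]
        rw [this]
        exact mul_mem (IntermediateField.algebraMap_mem _ _)
          (IntermediateField.mem_adjoin_simple_self M y)
    rw [hLs, hLs']
    rcases sq_eq_sq_iff_eq_or_eq_neg.1 e5 with h | h
    · exact (hsub _ _ _ hv0 h).symm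
    · refine (hsub (-((v : 𝓞 M) : M)) _ _ (neg_ne_zero.2 hv0) ?_).symm
      rw [h, map_neg, neg_mul]
  have hcard : Q.ncard ≤ T.card := by
    rw [← Set.ncard_coe_finset]
    exact Set.ncard_le_ncard_of_injOn Φ hmaps hinjΦ T.finite_toSet
  have hT : (T.card : ℝ) = (Fintype.card (ClassGroup (𝓞 M)) : ℝ) * Fintype.card W * S.ncard := by
    rw [Finset.card_product, Finset.card_product, Finset.card_univ, Finset.card_univ,
      Set.ncard_eq_toFinset_card _ hSfin]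
    push_cast
    ring
  calc (Q.ncard : ℝ) ≤ (T.card : ℝ) := by exact_mod_cast hcard
    _ = (Fintype.card (ClassGroup (𝓞 M)) : ℝ) * Fintype.card W * S.ncard := hT
    _ ≤ C * S.ncard := mul_le_mul_of_nonneg_right hC1 (Nat.cast_nonneg _)

end Pool.Agent.H419.RM.UPB
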