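import Pool.Agent.H419.RM.Posw
import Pool.Agent.H419.RM.DIV
import Pool.Agent.H419.RM.UPB
import Pool.Agent.H419.RM.IDC
import Pool.Agent.H419.RM.RAMA
import Pool.Agent.H419.RM.TOW
import Pool.Agent.H419.RM.SPS
import Pool.Agent.H419.LT.Sig
import Pool.Agent.H419.MK.Core
import Pool.Agent.H419.MK.MAINQ

/-! # The counts of the extensions with group `C₂ ≀ H` unramified at the primes of a set -/

set_option autoImplicit false
set_option linter.unusedSectionVars false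
set_option maxHeartbeats 400000

open NumberField Filter Topology
open Pool.Agent.TH444.ML Pool.Agent.H419.LT

namespace Pool.Agent.H419.RM

/-- The sum of `1 / N 𝔭` over the primes in `S` which are totally split in `M`. -/
def Conv (K M : Type) [Field K] [NumberField K] [Field M] [NumberField M] [Algebra K M]
    (S : Set (Ideal (𝓞 K))) : Prop :=
  Summable (fun 𝔭 : {𝔭 : Ideal (𝓞 K) // 𝔭 ∈ S ∧
      Set.ncard (𝔭.primesOver (𝓞 M)) = Module.finrank K M} => (1 : ℝ) / Ideal.absNorm 𝔭.1)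

section

variable {K Ω : Type} [Field K] [NumberField K] [Field Ω] [Algebra K Ω] [IsAlgClosed Ω]

/-- unramified in `L / K`, for `L ⊇ M` -/
theorem unr_iff (M : IntermediateField K Ω) [FiniteDimensional K M] [NumberField M]
    (L : IntermediateField M Ω) [NumberField L] (S : Set (Ideal (𝓞 K)))
    (hS : ∀ 𝔭 ∈ S, 𝔭.IsPrime ∧ 𝔭 ≠ ⊥) :
    (∀ 𝔭 ∈ S, Unr K (IntermediateField.restrictScalars K L) 𝔭) ↔
      (∀ 𝔭 ∈ S, Unr K M 𝔭) ∧ ∀ 𝔓 ∈ {𝔓 : Ideal (𝓞 M) | 𝔓.IsPrime ∧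
      𝔓.comap (algebraMap (𝓞 K) (𝓞 M)) ∈ S}, Unr M L 𝔓 := by
  have key : ∀ 𝔭 ∈ S, (Unr K (IntermediateField.restrictScalars K L) 𝔭 ↔ Unr K M 𝔭 ∧
      ∀ 𝔓 : Ideal (𝓞 M), 𝔓.IsPrime → 𝔓.comap (algebraMap (𝓞 K) (𝓞 M)) = 𝔭 → Unr M L 𝔓) :=
    fun 𝔭 h => TOW.t_TOW K M L 𝔭 (hS 𝔭 h).1 (hS 𝔭 h).2
  constructor
  · intro h
    refine ⟨fun 𝔭 h𝔭 => ((key 𝔭 h𝔭).1 (h 𝔭 h𝔭)).1, ?_⟩
    rintro 𝔓 ⟨h1, h2⟩
    exact ((key _ h2).1 (h _ h2)).2 𝔓 h1 rfl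
  · rintro ⟨h1, h2⟩ 𝔭 h𝔭
    exact (key 𝔭 h𝔭).2 ⟨h1 𝔭 h𝔭, fun 𝔓 h3 h4 => h2 𝔓 ⟨h3, by rw [h4]; exact h𝔭⟩⟩

theorem lim_M (M : IntermediateField K Ω) [FiniteDimensional K M] [NumberField M] [IsGalois K M]
    (S : Set (Ideal (𝓞 K))) (hS : ∀ 𝔭 ∈ S, 𝔭.IsPrime ∧ 𝔭 ≠ ⊥) :
    ∃ c : ℝ, Tendsto (fun Y : ℝ => (Set.ncard {L : IntermediateField K Ω | L ∈ AS M Y ∧
      ∀ 𝔭 ∈ S, Unr K L 𝔭} : ℝ) / Y) atTop (𝓝 c) ∧
      (c ≠ 0 ↔ (∀ 𝔭 ∈ S, Unr K M 𝔭) ∧ Conv K M S) := by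
  have hnf : ∀ Y : ℝ, ∀ L ∈ QS M Ω Y, NumberField L := fun Y L h => h.2.1
  by_cases hM : ∀ 𝔭 ∈ S, Unr K M 𝔭
  · set W : Set (Ideal (𝓞 M)) := {𝔓 : Ideal (𝓞 M) | 𝔓.IsPrime ∧
      𝔓.comap (algebraMap (𝓞 K) (𝓞 M)) ∈ S} with hW
    have hinj : Function.Injective (algebraMap (𝓞 K) (𝓞 M)) :=
      FaithfulSMul.algebraMap_injective (𝓞 K) (𝓞 M)
    have hWp : ∀ 𝔓 ∈ W, 𝔓.IsPrime ∧ 𝔓 ≠ ⊥ := by
      rintro 𝔓 ⟨h1, h2⟩
      refine ⟨h1, ?_⟩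
      rintro rfl
      apply (hS _ h2).2
      rw [eq_bot_iff]
      intro x hx
      rw [Ideal.mem_comap, Ideal.mem_bot, map_eq_zero_iff _ hinj] at hx
      rw [hx]
      exact Ideal.zero_mem _
    have hset : ∀ Y : ℝ, Set.ncard {L : IntermediateField K Ω | L ∈ AS M Y ∧
        ∀ 𝔭 ∈ S, Unr K L 𝔭} = Set.ncard {L : IntermediateField M Ω | L ∈ QS M Ω Y ∧
        ∀ 𝔓 ∈ W, Unr M L 𝔓} := by
      intro Y
      rw [ncard_AS_P M (fun L => ∀ 𝔭 ∈ S, Unr K L 𝔭)]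
      congr 1
      ext L
      constructor
      · rintro ⟨h1, h2⟩
        have := hnf Y L h1
        exact ⟨h1, ((unr_iff M L S hS).1 h2).2⟩
      · rintro ⟨h1, h2⟩
        have := hnf Y L h1
        exact ⟨h1, (unr_iff M L S hS).2 ⟨hM, h2⟩⟩
    obtain ⟨c, hc, hc0⟩ := limw (M := M) (E := Ω) (DIV.t_DIV RAMB.t_RAMB CUB.t_CUB)
      (UPB.t_UPB RAMA.t_RAMA) IDC.t_IDC W hWp
    refine ⟨c, hc.congr fun Y => ?_, ?_⟩
    · rw [hset]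
    · have h1 := SPS.t_SPS K M S hS
      constructor
      · intro h
        refine ⟨hM, ?_⟩
        by_contra h2
        apply h
        apply hc0
        intro h3
        exact h2 (h1.1 h3)
      · rintro ⟨-, h2⟩ rfl
        exact posw W hWp (h1.2 h2) hc
  · refine ⟨0, ?_, ?_⟩
    · have : ∀ Y : ℝ, Set.ncard {L : IntermediateField K Ω | L ∈ AS M Y ∧
          ∀ 𝔭 ∈ S, Unr K L 𝔭} = 0 := by
        intro Y
        rw [ncard_AS_P M (fun L => ∀ 𝔭 ∈ S, Unr K L 𝔭)]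
        have h0 : {L : IntermediateField M Ω | L ∈ QS M Ω Y ∧
            ∀ 𝔭 ∈ S, Unr K (IntermediateField.restrictScalars K L) 𝔭} = ∅ := by
          rw [Set.eq_empty_iff_forall_notMem]
          rintro L ⟨h1, h2⟩
          have := hnf Y L h1
          exact hM ((unr_iff M L S hS).1 h2).1
        rw [h0, Set.ncard_empty]
      simp only [this, Nat.cast_zero, zero_div]
      exact tendsto_const_nhds
    · constructor
      · intro h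
        exact absurd rfl h
      · rintro ⟨h, -⟩
        exact absurd h hM

end

theorem unr_iso {K L L' : Type} [Field K] [Field L] [Field L'] [Algebra K L] [Algebra K L']
    (e : L ≃ₐ[K] L') {𝔭 : Ideal (𝓞 K)} (h : Unr K L 𝔭) : Unr K L' 𝔭 :=
  unr_of_red 𝔭 _ h (ty_iso e ⟨AlgEquiv.refl⟩)

/-- counting up to isomorphism -/
theorem quot_P {K Ω H : Type} [Field K] [NumberField K] [Field Ω] [Algebra K Ω]
    [IsAlgClosure K Ω] [Group H] [Finite H] (P : IntermediateField K Ω → Prop)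
    (hP : ∀ L L' : IntermediateField K Ω, (L ≃ₐ[K] L') → P L → P L') (Z : ℝ)
    (hfin : (TT K Ω H Z).Finite) :
    Nat.card (Quot (fun L L' : {L : IntermediateField K Ω | L ∈ TT K Ω H Z ∧ P L} =>
      Nonempty (L.1 ≃ₐ[K] L'.1))) * Nat.card H =
      Set.ncard {L : IntermediateField K Ω | L ∈ TT K Ω H Z ∧ P L} := by
  have : Finite {L : IntermediateField K Ω | L ∈ TT K Ω H Z ∧ P L} :=
    hfin.subset (fun L h => h.1)
  rw [card_quot (T := {L : IntermediateField K Ω | L ∈ TT K Ω H Z ∧ P L})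
    (fun L L' => Nonempty (L.1 ≃ₐ[K] L'.1)) ?_ (Nat.card H) ?_]
  · rfl
  · exact ⟨fun L => ⟨AlgEquiv.refl⟩, fun ⟨a⟩ => ⟨a.symm⟩, fun ⟨a⟩ ⟨b⟩ => ⟨a.trans b⟩⟩
  · intro L
    rw [← Pool.Agent.TH928.J3106.wrConj K Ω H L.1 L.2.1.1 L.2.1.2.1, ← Nat.card_coe_set_eq]
    refine Nat.card_congr ⟨fun y => ⟨y.1.1, y.2⟩,
      fun y => ⟨⟨y.1, tt_iso L.2.1 y.2.some, hP _ _ y.2.some L.2.2⟩, y.2⟩,
      fun y => rfl, fun y => rfl⟩

/-- **The count.** -/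
theorem coreS (K : Type) [Field K] [NumberField K] (H : Type) [Group H]
    [Finite H] (h2 : 2 ≤ Nat.card H) (s : ℝ) (hs : s < 3 / 2)
    (hsum : Summable (fun M : Gal K (AlgebraicClosure K) H => (dsc M.1) ^ (-s))) {n : ℕ}
    (G : Subgroup (Equiv.Perm (Fin n))) (hG : IsC2Wr H G) (S : Set (Ideal (𝓞 K)))
    (hS : ∀ 𝔭 ∈ S, 𝔭.IsPrime ∧ 𝔭 ≠ ⊥) :
    ∃ c : ℝ, 0 ≤ c ∧
      Tendsto (fun X : ℝ =>
        (Nat.card (Quot (fun L L' : {L : IntermediateField K (AlgebraicClosure K) |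
          L ∈ Cnt K G X ∧ ∀ 𝔭 ∈ S, Unr K L 𝔭} => Nonempty (L.1 ≃ₐ[K] L'.1))) : ℝ) / X)
        atTop (𝓝 c) ∧
      (0 < c ↔ ∃ M ∈ Gal K (AlgebraicClosure K) H, (∀ 𝔭 ∈ S, Unr K M 𝔭) ∧
        ∃ h : NumberField M, @Conv K M _ _ _ h _ S) := by
  have hd : 0 < ((|discr K| : ℤ) : ℝ) ^ n := by
    have : (0 : ℤ) < |discr K| := abs_pos.2 (discr_ne_zero K)
    have : (0 : ℝ) < ((|discr K| : ℤ) : ℝ) := by exact_mod_cast this
    positivity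
  have hpos : (0 : ℝ) < Nat.card H := by exact_mod_cast (by omega : 0 < Nat.card H)
  have hM : ∀ M ∈ Gal K (AlgebraicClosure K) H, ∃ (_ : NumberField M) (c : ℝ),
      Tendsto (fun Y : ℝ =>
      (Set.ncard {L : IntermediateField K (AlgebraicClosure K) | L ∈ AS M Y ∧
        ∀ 𝔭 ∈ S, Unr K L 𝔭} : ℝ) / Y) atTop (𝓝 c) ∧
      (c ≠ 0 ↔ (∀ 𝔭 ∈ S, Unr K M 𝔭) ∧ Conv K M S) := by
    intro M hM
    have hfd := gal_fd hM
    have hgal : IsGalois K M := hM.2.1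
    have hnf : NumberField M := nf_of_fd M
    exact ⟨hnf, lim_M M S hS⟩
  obtain ⟨hfin, c, hc0, hlim, hiff⟩ := MK.MAINQ.t_MAINQ K (AlgebraicClosure K) H
    (fun L => ∀ 𝔭 ∈ S, Unr K L 𝔭) h2 s hs hsum
    (fun M h => by
      obtain ⟨_, c, hc, -⟩ := hM M h
      exact ⟨c, hc⟩) _ hd
  have hset : ∀ X : ℝ, {L : IntermediateField K (AlgebraicClosure K) |
      L ∈ Cnt K G X ∧ ∀ 𝔭 ∈ S, Unr K L 𝔭} = {L : IntermediateField K (AlgebraicClosure K) |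
      L ∈ TT K (AlgebraicClosure K) H (X * ((|discr K| : ℤ) : ℝ) ^ n) ∧
        ∀ 𝔭 ∈ S, Unr K L 𝔭} := by
    intro X
    rw [cnt_eq K hG]
  refine ⟨c / Nat.card H, by positivity, ?_, ?_⟩
  · refine (hlim.div_const (Nat.card H : ℝ)).congr' ?_
    filter_upwards [eventually_gt_atTop (0 : ℝ)] with X hX
    rw [card_quot_congr (hset X), ← quot_P (K := K) (Ω := AlgebraicClosure K) (H := H)
      (fun L => ∀ 𝔭 ∈ S, Unr K L 𝔭) (fun L L' e h 𝔭 h𝔭 => unr_iso e (h 𝔭 h𝔭)) _ (hfin X hX)]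
    push_cast
    field_simp
  · rw [div_pos_iff_of_pos_right hpos, hiff]
    constructor
    · rintro ⟨M, h, hne⟩
      obtain ⟨hnf, c, hc, h3⟩ := hM M h
      have h4 : c ≠ 0 := by
        rintro rfl
        exact hne hc
      exact ⟨M, h, (h3.1 h4).1, hnf, (h3.1 h4).2⟩
    · rintro ⟨M, h, h4, hnf', h5⟩
      obtain ⟨hnf, c, hc, h3⟩ := hM M h
      refine ⟨M, h, fun h6 => ?_⟩
      have h7 : c ≠ 0 := h3.2 ⟨h4, h5⟩
      exact h7 (tendsto_nhds_unique hc h6)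

end Pool.Agent.H419.RM
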