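import Pool.Agent.H419.RM.Stm

/-! # `M(√α)` is unramified at the odd primes where `α` has even valuation -/

set_option autoImplicit false

open NumberField

namespace Pool.Agent.H419.RM.RAMB

/-- the square class of `α` contains an integer which is a unit at `𝔓` -/
theorem exists_unit {M : Type} [Field M] [NumberField M] {α : 𝓞 M} {𝔡 𝔠 𝔓 : Ideal (𝓞 M)}
    (hα : α ≠ 0) (hd : Ideal.span {α} = 𝔡 * 𝔠 ^ 2) (hP : 𝔓.IsPrime) (hPd : ¬ 𝔓 ∣ 𝔡) :
    ∃ g h β : 𝓞 M, g ≠ 0 ∧ h ≠ 0 ∧ β ∉ 𝔓 ∧ h ^ 2 * α = g ^ 2 * β := by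
  have hc : 𝔠 ≠ ⊥ := by
    rintro rfl
    apply hα
    rw [← Ideal.span_singleton_eq_bot, hd, ← Ideal.zero_eq_bot, zero_pow two_ne_zero, mul_zero]
  have hc0 : 𝔠 ≠ 0 := by rwa [Ideal.zero_eq_bot]
  have hlt : 𝔓 * 𝔠 < 𝔠 := by
    refine lt_of_le_of_ne Ideal.mul_le_right fun e => hP.ne_top ?_
    have e' : 𝔓 * 𝔠 = 1 * 𝔠 := by rw [e, one_mul]
    have := mul_right_cancel₀ hc0 e'
    rw [this, Ideal.one_eq_top]
  obtain ⟨g, hg, hg'⟩ := SetLike.exists_of_lt hlt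
  have hg0 : g ≠ 0 := by
    rintro rfl
    exact hg' (zero_mem _)
  obtain ⟨n, hn⟩ := Ideal.dvd_span_singleton.2 hg
  have hnP : ¬ n ≤ 𝔓 := fun hle => hg' (by
    have h1 : 𝔓 * 𝔠 ∣ Ideal.span {g} := by
      rw [hn, mul_comm 𝔠]
      exact mul_dvd_mul_right (Ideal.dvd_iff_le.2 hle) _
    exact Ideal.dvd_span_singleton.1 h1)
  obtain ⟨h, hhn, hhP⟩ := SetLike.not_le_iff_exists.1 hnP
  have hh0 : h ≠ 0 := by
    rintro rfl
    exact hhP (zero_mem _)
  have hspan : n ^ 2 * (𝔡 * 𝔠 ^ 2) = 𝔡 * Ideal.span {g} ^ 2 := by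
    rw [hn]
    ring
  have hmem : h ^ 2 * α ∈ Ideal.span {g ^ 2} := by
    have h1 : h ^ 2 * α ∈ n ^ 2 * (𝔡 * 𝔠 ^ 2) := by
      refine Ideal.mul_mem_mul (Ideal.pow_mem_pow hhn 2) ?_
      rw [← hd]
      exact Ideal.mem_span_singleton_self α
    rw [hspan] at h1
    have h2 := Ideal.mul_le_right h1
    rwa [Ideal.span_singleton_pow] at h2
  obtain ⟨β, hβ⟩ := Ideal.mem_span_singleton'.1 hmem
  refine ⟨g, h, β, hg0, hh0, fun hβP => ?_, by rw [← hβ]; ring⟩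
  have hg2 : Ideal.span {g} ^ 2 ≠ 0 := by
    refine pow_ne_zero 2 ?_
    rw [Ideal.zero_eq_bot, Ne, Ideal.span_singleton_eq_bot]
    exact hg0
  have e1 : Ideal.span {β} * Ideal.span {g} ^ 2 = Ideal.span {h} ^ 2 * (𝔡 * 𝔠 ^ 2) := by
    rw [← hd, Ideal.span_singleton_pow, Ideal.span_singleton_pow,
      Ideal.span_singleton_mul_span_singleton, Ideal.span_singleton_mul_span_singleton, hβ]
  have e2 : Ideal.span {β} * n ^ 2 = Ideal.span {h} ^ 2 * 𝔡 := by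
    apply mul_right_cancel₀ hg2
    calc Ideal.span {β} * n ^ 2 * Ideal.span {g} ^ 2
        = n ^ 2 * (Ideal.span {β} * Ideal.span {g} ^ 2) := by ring
      _ = Ideal.span {h} ^ 2 * (n ^ 2 * (𝔡 * 𝔠 ^ 2)) := by rw [e1]; ring
      _ = Ideal.span {h} ^ 2 * 𝔡 * Ideal.span {g} ^ 2 := by rw [hspan]; ring
  have h3 : Ideal.span {h} ^ 2 * 𝔡 ≤ 𝔓 := by
    rw [← e2]
    exact Ideal.mul_le_left.trans ((Ideal.span_singleton_le_iff_mem _).2 hβP)
  rcases hP.mul_le.1 h3 with h4 | h4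
  · exact hhP ((Ideal.span_singleton_le_iff_mem _).1 (hP.le_of_pow_le h4))
  · exact hPd (Ideal.dvd_iff_le.2 h4)

/-- coordinates and traces in a quadratic extension -/
theorem quad {M L : Type} [Field M] [Field L] [Algebra M L] (hr : Module.finrank M L = 2) {y : L}
    {b : M} (hy : y ^ 2 = algebraMap M L b) (hyM : ∀ x : M, algebraMap M L x ≠ y) :
    Algebra.trace M L y = 0 ∧ ∀ z : L, ∃ u v : M, z = algebraMap M L u + algebraMap M L v * y := by
  have hli : LinearIndependent M ![1, y] := by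
    rw [LinearIndependent.pair_iff]
    intro u v h
    rw [Algebra.smul_def, Algebra.smul_def, mul_one] at h
    by_cases hv : v = 0
    · subst hv
      rw [map_zero, zero_mul, add_zero] at h
      exact ⟨(map_eq_zero _).1 h, rfl⟩
    · exfalso
      apply hyM (-u / v)
      have hv' : algebraMap M L v ≠ 0 := (map_ne_zero _).2 hv
      rw [map_div₀, map_neg, div_eq_iff hv']
      linear_combination -h
  have : FiniteDimensional M L := Module.finite_of_finrank_pos (by omega)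
  let B : Module.Basis (Fin 2) M L :=
    basisOfLinearIndependentOfCardEqFinrank hli (by rw [hr, Fintype.card_fin])
  have hB : ⇑B = ![1, y] := coe_basisOfLinearIndependentOfCardEqFinrank _ _
  have hB0 : B 0 = 1 := by rw [hB]; rfl
  have hB1 : B 1 = y := by rw [hB]; rfl
  refine ⟨?_, fun z => ⟨B.repr z 0, B.repr z 1, ?_⟩⟩
  · rw [Algebra.trace_eq_matrix_trace B, Matrix.trace_fin_two, Algebra.leftMulMatrix_eq_repr_mul,
      Algebra.leftMulMatrix_eq_repr_mul, hB0, hB1, mul_one]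
    have e1 : B.repr y 0 = 0 := by
      rw [← hB1, B.repr_self, Finsupp.single_apply, if_neg (by decide)]
    have e2 : B.repr (y * y) 1 = 0 := by
      rw [← pow_two, hy, Algebra.algebraMap_eq_smul_one, ← hB0, map_smul, B.repr_self,
        Finsupp.smul_apply, Finsupp.single_apply, if_neg (by decide), smul_zero]
    rw [e1, e2, add_zero]
  · have := B.sum_repr z
    rw [Fin.sum_univ_two, hB0, hB1, Algebra.smul_def, Algebra.smul_def, mul_one] at this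
    exact this.symm

theorem t_RAMB : S_RAMB := by
  intro M L _ _ _ _ _ s α 𝔡 𝔠 𝔓 hr hs hsM hα _ hd hP hP0 h2 hPd
  obtain ⟨g, h, β, hg0, hh0, hβ, hgh⟩ := exists_unit hα hd hP hPd
  have hg0' : algebraMap M L (g : M) ≠ 0 := by
    rw [Ne, map_eq_zero, RingOfIntegers.coe_eq_zero_iff]
    exact hg0
  have hh0' : algebraMap M L (h : M) ≠ 0 := by
    rw [Ne, map_eq_zero, RingOfIntegers.coe_eq_zero_iff]
    exact hh0
  -- the new root
  obtain ⟨y, hy⟩ : ∃ y : L, y = algebraMap M L (h : M) * s / algebraMap M L (g : M) := ⟨_, rfl⟩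
  have hy2 : y ^ 2 = algebraMap M L (β : M) := by
    have e1 := congrArg (fun x : 𝓞 M => algebraMap M L (x : M)) hgh
    simp only [map_mul, map_pow] at e1
    rw [hy, div_pow, mul_pow, hs, div_eq_iff (pow_ne_zero 2 hg0')]
    rw [e1]
    ring
  have hyM : ∀ x : M, algebraMap M L x ≠ y := by
    intro x hx
    apply hsM (x * g / h)
    rw [map_div₀, map_mul, hx, hy]
    field_simp
  have hyint : IsIntegral ℤ y := by
    refine IsIntegral.of_pow (n := 2) two_pos ?_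
    rw [hy2]
    exact (RingOfIntegers.isIntegral_coe β).algebraMap
  obtain ⟨Y, hY⟩ : ∃ Y : 𝓞 L, (Y : L) = y := ⟨⟨y, hyint⟩, rfl⟩
  obtain ⟨htr, hdec⟩ := quad hr hy2 hyM
  -- the trace
  obtain ⟨t, ht⟩ : ∃ t : 𝓞 L →ₗ[𝓞 M] 𝓞 M, ∀ z, algebraMap (𝓞 M) M (t z) =
      Algebra.trace M L (algebraMap (𝓞 L) L z) :=
    ⟨Algebra.intTrace (𝓞 M) (𝓞 L), fun z => Algebra.algebraMap_intTrace z⟩
  have htP : ∀ z ∈ 𝔓.map (algebraMap (𝓞 M) (𝓞 L)), t z ∈ 𝔓 := by
    intro z hz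
    have h1 : z ∈ (𝔓 • (⊤ : Submodule (𝓞 M) (𝓞 L))) := by
      rw [Ideal.smul_top_eq_map]
      exact hz
    have h2 : t z ∈ (𝔓 • (⊤ : Submodule (𝓞 M) (𝓞 L))).map t := ⟨z, h1, rfl⟩
    rw [Submodule.map_smul''] at h2
    have h3 : 𝔓 * (Submodule.map t ⊤ : Ideal (𝓞 M)) ≤ 𝔓 := Ideal.mul_le_left
    exact h3 h2
  have hinjM : Function.Injective (algebraMap (𝓞 M) M) := RingOfIntegers.coe_injective
  have hinjL : Function.Injective (algebraMap (𝓞 L) L) := RingOfIntegers.coe_injective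
  have htow : ∀ x : 𝓞 M, algebraMap (𝓞 L) L (algebraMap (𝓞 M) (𝓞 L) x) =
      algebraMap M L (algebraMap (𝓞 M) M x) := fun x => rfl
  have hYL : algebraMap (𝓞 L) L Y = y := hY
  have htrM : ∀ x : M, Algebra.trace M L (algebraMap M L x) = 2 * x := by
    intro x
    rw [Algebra.trace_algebraMap, hr, nsmul_eq_mul]
    norm_num
  have htrY : ∀ x : M, Algebra.trace M L (algebraMap M L x * y) = 0 := by
    intro x
    rw [← Algebra.smul_def, map_smul, htr, smul_zero]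
  have hbase : ∀ x : 𝓞 M, t (algebraMap (𝓞 M) (𝓞 L) x) = 2 * x := by
    intro x
    apply hinjM
    rw [ht, htow, htrM, map_mul, map_ofNat]
  have hbaseY : ∀ x : 𝓞 M, t (algebraMap (𝓞 M) (𝓞 L) x * Y) = 0 := by
    intro x
    apply hinjM
    rw [ht, map_mul, htow, hYL, htrY, map_zero]
  have hY2 : Y * Y = algebraMap (𝓞 M) (𝓞 L) β := by
    apply hinjL
    rw [map_mul, hYL, htow, ← pow_two, hy2]
  have hdecO : ∀ z : 𝓞 L, algebraMap (𝓞 M) (𝓞 L) (2 * β) * z =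
      algebraMap (𝓞 M) (𝓞 L) (β * t z) + algebraMap (𝓞 M) (𝓞 L) (t (z * Y)) * Y := by
    intro z
    obtain ⟨u, v, huv⟩ := hdec (algebraMap (𝓞 L) L z)
    have e1 : algebraMap (𝓞 M) M (t z) = 2 * u := by
      rw [ht, huv, map_add, htrM, htrY, add_zero]
    have e2 : algebraMap (𝓞 M) M (t (z * Y)) = 2 * (v * algebraMap (𝓞 M) M β) := by
      rw [ht, map_mul, huv, hYL]
      have e3 : (algebraMap M L u + algebraMap M L v * y) * y =
          algebraMap M L u * y + algebraMap M L (v * algebraMap (𝓞 M) M β) := by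
        rw [map_mul]
        linear_combination algebraMap M L v * hy2
      rw [e3, map_add, htrY, htrM, zero_add]
    apply hinjL
    simp only [map_mul, map_add, htow, hYL, e1, e2, huv, map_ofNat]
    ring
  -- the square of an element
  show IsReduced _
  rw [isReduced_iff_pow_one_lt 2 one_lt_two]
  intro X hX
  obtain ⟨z, rfl⟩ := Ideal.Quotient.mk_surjective X
  rw [← map_pow, Ideal.Quotient.eq_zero_iff_mem] at hX
  rw [Ideal.Quotient.eq_zero_iff_mem]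
  obtain ⟨a, ha⟩ : ∃ a, a = t z := ⟨_, rfl⟩
  obtain ⟨b, hb⟩ : ∃ b, b = t (z * Y) := ⟨_, rfl⟩
  have hz := hdecO z
  rw [← ha, ← hb] at hz
  have hw : algebraMap (𝓞 M) (𝓞 L) (β * (β * a ^ 2 + b ^ 2)) +
      algebraMap (𝓞 M) (𝓞 L) (2 * β * a * b) * Y ∈ 𝔓.map (algebraMap (𝓞 M) (𝓞 L)) := by
    have e : algebraMap (𝓞 M) (𝓞 L) (β * (β * a ^ 2 + b ^ 2)) +
        algebraMap (𝓞 M) (𝓞 L) (2 * β * a * b) * Y =
        algebraMap (𝓞 M) (𝓞 L) (2 * β) ^ 2 * z ^ 2 := by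
      rw [← mul_pow, hz]
      simp only [map_mul, map_add, map_pow, map_ofNat]
      linear_combination (-(algebraMap (𝓞 M) (𝓞 L) b) ^ 2) * hY2
    rw [e]
    exact Ideal.mul_mem_left _ _ hX
  have h3 := htP _ hw
  rw [map_add, hbase, hbaseY, add_zero] at h3
  have h4 := htP _ (Ideal.mul_mem_right Y _ hw)
  have e4 : (algebraMap (𝓞 M) (𝓞 L) (β * (β * a ^ 2 + b ^ 2)) +
      algebraMap (𝓞 M) (𝓞 L) (2 * β * a * b) * Y) * Y =
      algebraMap (𝓞 M) (𝓞 L) (β * (β * a ^ 2 + b ^ 2)) * Y +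
        algebraMap (𝓞 M) (𝓞 L) (2 * β * a * b * β) := by
    rw [add_mul, mul_assoc _ Y Y, hY2, ← map_mul]
  rw [e4, map_add, hbase, hbaseY, zero_add] at h4
  have h5 : β * a ^ 2 + b ^ 2 ∈ 𝔓 :=
    ((hP.mem_or_mem ((hP.mem_or_mem h3).resolve_left h2))).resolve_left hβ
  have h6 : a ∈ 𝔓 ∨ b ∈ 𝔓 := by
    have h7 := (hP.mem_or_mem h4).resolve_left h2
    have h8 := (hP.mem_or_mem h7).resolve_right hβ
    rcases hP.mem_or_mem h8 with h9 | h9
    · rcases hP.mem_or_mem h9 with h10 | h10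
      · rcases hP.mem_or_mem h10 with h11 | h11
        · exact absurd h11 h2
        · exact absurd h11 hβ
      · exact Or.inl h10
    · exact Or.inr h9
  have h7 : a ∈ 𝔓 ∧ b ∈ 𝔓 := by
    rcases h6 with ha' | hb'
    · refine ⟨ha', ?_⟩
      have h8 : β * a ^ 2 ∈ 𝔓 := Ideal.mul_mem_left _ _ (Ideal.pow_mem_of_mem _ ha' 2 two_pos)
      exact hP.mem_of_pow_mem 2 ((Ideal.add_mem_iff_right _ h8).1 h5)
    · refine ⟨?_, hb'⟩
      have h8 : b ^ 2 ∈ 𝔓 := Ideal.pow_mem_of_mem _ hb' 2 two_pos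
      exact hP.mem_of_pow_mem 2 ((hP.mem_or_mem ((Ideal.add_mem_iff_left _ h8).1 h5)).resolve_left
        hβ)
  have h8 : algebraMap (𝓞 M) (𝓞 L) (2 * β) * z ∈ 𝔓.map (algebraMap (𝓞 M) (𝓞 L)) := by
    rw [hz]
    exact Ideal.add_mem _ (Ideal.mem_map_of_mem _ (Ideal.mul_mem_left _ _ h7.1))
      (Ideal.mul_mem_right _ _ (Ideal.mem_map_of_mem _ h7.2))
  have hmax : 𝔓.IsMaximal := hP.isMaximal hP0
  have h2β : 2 * β ∉ 𝔓 := fun h9 => (hP.mem_or_mem h9).elim h2 hβ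
  obtain ⟨c, i, hi, hci⟩ := hmax.exists_inv h2β
  have e5 : z = algebraMap (𝓞 M) (𝓞 L) c * (algebraMap (𝓞 M) (𝓞 L) (2 * β) * z) +
      algebraMap (𝓞 M) (𝓞 L) i * z := by
    rw [← mul_assoc, ← map_mul, ← add_mul, ← map_add, hci, map_one, one_mul]
  rw [e5]
  exact Ideal.add_mem _ (Ideal.mul_mem_left _ _ h8)
    (Ideal.mul_mem_right _ _ (Ideal.mem_map_of_mem _ hi))

end Pool.Agent.H419.RM.RAMB
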