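import Pool.Agent.H419.RM.Stm

/-! # Elements near `1` without prime divisors in a set of primes with a convergent sum -/

set_option autoImplicit false

open NumberField Filter Topology
open Pool.Agent.TH444.ML Pool.Agent.H419.LT

namespace Pool.Agent.H419.RM.BGD

/-- The bad elements for one prime. -/
theorem one_prime (M : Type) [Field M] [NumberField M] (c : ℝ) (hc : 0 < c)
    (hcex : ∀ (𝔟 : Ideal (𝓞 M)), 𝔟 ≠ ⊥ → ∀ a : 𝓞 M, Tendsto (fun Z : ℝ =>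
      (Set.ncard {α : 𝓞 M | α ∈ cone M ∧ α - a ∈ 𝔟 ∧ nrm α ≤ Z} : ℝ) / Z) atTop
      (𝓝 (c / Ideal.absNorm 𝔟))) (n1 P : Ideal (𝓞 M)) (hn1 : n1 ≠ ⊥) (hP : P.IsPrime)
    (hP0 : P ≠ ⊥) (η : ℝ) (hη : 0 < η) :
    ∀ᶠ Z : ℝ in atTop,
      (Set.ncard {α : 𝓞 M | α ∈ cone M ∧ α - 1 ∈ n1 ∧ α ∈ P ∧ nrm α ≤ Z} : ℝ) ≤
        ((c / Ideal.absNorm n1) * (1 / Ideal.absNorm P) + η) * Z := by
  by_cases hle : n1 ≤ P
  · filter_upwards [eventually_gt_atTop 0] with Z hZ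
    have he : {α : 𝓞 M | α ∈ cone M ∧ α - 1 ∈ n1 ∧ α ∈ P ∧ nrm α ≤ Z} = ∅ := by
      rw [Set.eq_empty_iff_forall_notMem]
      rintro α ⟨-, h2, h3, -⟩
      apply hP.ne_top
      rw [Ideal.eq_top_iff_one]
      have := P.sub_mem h3 (hle h2)
      rwa [sub_sub_cancel] at this
    rw [he, Set.ncard_empty, Nat.cast_zero]
    positivity
  · have hPm : P.IsMaximal := hP.isMaximal hP0
    have hcop : IsCoprime n1 P := by
      rw [Ideal.isCoprime_iff_sup_eq, sup_comm]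
      by_contra hne
      have h3 := (hPm.1.2 (P ⊔ n1))
      by_cases h4 : P < P ⊔ n1
      · exact hne (h3 h4)
      · have h5 : P = P ⊔ n1 := le_antisymm le_sup_left (by
          by_contra h6
          exact h4 (lt_of_le_not_ge le_sup_left h6))
        exact hle (h5 ▸ le_sup_right)
    obtain ⟨i, hi, j, hj, hij⟩ := Ideal.isCoprime_iff_exists.1 hcop
    have h3 := hcex (n1 * P) (mul_ne_zero hn1 hP0) j
    have h4 : c / (Ideal.absNorm (n1 * P) : ℝ) < (c / Ideal.absNorm n1) * (1 / Ideal.absNorm P) + η := by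
      rw [map_mul, Nat.cast_mul, div_mul_div_comm, mul_one]
      linarith
    filter_upwards [h3.eventually_lt_const h4, eventually_gt_atTop 0] with Z hZ hZ0
    have he : {α : 𝓞 M | α ∈ cone M ∧ α - 1 ∈ n1 ∧ α ∈ P ∧ nrm α ≤ Z} =
        {α : 𝓞 M | α ∈ cone M ∧ α - j ∈ n1 * P ∧ nrm α ≤ Z} := by
      ext α
      have hinf : n1 ⊓ P = n1 * P := (Ideal.mul_eq_inf_of_isCoprime hcop).symm
      rw [← hinf]
      constructor
      · rintro ⟨k1, k2, k3, k4⟩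
        refine ⟨k1, ⟨?_, P.sub_mem k3 hj⟩, k4⟩
        have e : α - j = (α - 1) + i := by rw [← hij]; ring
        rw [e]
        exact n1.add_mem k2 hi
      · rintro ⟨k1, ⟨k2, k3⟩, k4⟩
        refine ⟨k1, ?_, ?_, k4⟩
        · have e : α - 1 = (α - j) - i := by rw [← hij]; ring
          rw [e]
          exact n1.sub_mem k2 hi
        · have := P.add_mem k3 hj
          rwa [sub_add_cancel] at this
    rw [he]
    exact ((div_lt_iff₀ hZ0).1 hZ).le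

theorem t_BGD (h1 : S_CEX) (h2 : S_CUB) : S_BGD := by
  classical
  intro M _ _ 𝔫 W h𝔫 hW hsum
  obtain ⟨c, hc, hcex⟩ := h1 M
  obtain ⟨C, hC, hcub⟩ := h2 M
  set f : W → ℝ := fun 𝔓 => (1 : ℝ) / Ideal.absNorm 𝔓.1 with hf
  have hf0 : ∀ P, 0 ≤ f P := fun P => by
    rw [hf]
    positivity
  have hvan := summable_iff_vanishing_norm.1 hsum
  obtain ⟨s1, hs1⟩ := hvan (1 / 4) (by norm_num)
  set n1 : Ideal (𝓞 M) := 𝔫 * ∏ P ∈ s1, P.1 with hn1
  have hn10 : n1 ≠ ⊥ := mul_ne_zero h𝔫 (Finset.prod_ne_zero_iff.2 fun P _ => (hW P.1 P.2).2)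
  have hn1P : ∀ P ∈ s1, n1 ≤ P.1 := by
    intro P hP
    refine le_trans Ideal.mul_le_right ?_
    exact Ideal.le_of_dvd (Finset.dvd_prod_of_mem (fun P : W => P.1) hP)
  have hn1n : n1 ≤ 𝔫 := Ideal.mul_le_left
  have hN1 : (0 : ℝ) < Ideal.absNorm n1 := by
    have : Ideal.absNorm n1 ≠ 0 := by
      rw [Ne, Ideal.absNorm_eq_zero_iff]
      exact hn10
    exact_mod_cast Nat.pos_of_ne_zero this
  set q : ℝ := c / Ideal.absNorm n1 with hq
  have hq0 : 0 < q := div_pos hc hN1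
  obtain ⟨s2, hs2⟩ := hvan (q / (8 * C)) (by positivity)
  set η : ℝ := (q / 8) / (s2.card + 1) with hη
  have hη0 : 0 < η := by positivity
  have hηc : (s2.card : ℝ) * η ≤ q / 8 := by
    rw [hη, mul_div_assoc']
    rw [div_le_iff₀ (by positivity)]
    nlinarith
  -- the events
  have E2 : ∀ᶠ Z : ℝ in atTop, {α : 𝓞 M | α ∈ cone M ∧ nrm α ≤ Z}.Finite := by
    have h3 := hcex ⊤ (by
      intro h
      exact absurd h.symm bot_ne_top) 0
    rw [Ideal.absNorm_top, Nat.cast_one, div_one] at h3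
    filter_upwards [h3.eventually_const_lt hc] with Z hZ
    have h4 : (Set.ncard {α : 𝓞 M | α ∈ cone M ∧ α - 0 ∈ (⊤ : Ideal (𝓞 M)) ∧ nrm α ≤ Z}) ≠ 0 := by
      intro h0
      rw [h0, Nat.cast_zero, zero_div] at hZ
      exact lt_irrefl _ hZ
    refine (Set.finite_of_ncard_ne_zero h4).subset ?_
    rintro α ⟨k1, k2⟩
    exact ⟨k1, Submodule.mem_top, k2⟩
  have E3 : ∀ᶠ Z : ℝ in atTop, 7 / 8 * q * Z ≤
      (Set.ncard {α : 𝓞 M | α ∈ cone M ∧ α - 1 ∈ n1 ∧ nrm α ≤ Z} : ℝ) := by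
    have h3 := hcex n1 hn10 1
    have h4 : 7 / 8 * q < c / (Ideal.absNorm n1 : ℝ) := by
      rw [← hq]
      linarith
    filter_upwards [h3.eventually_const_lt h4, eventually_gt_atTop 0] with Z hZ hZ0
    exact ((lt_div_iff₀ hZ0).1 hZ).le
  have E4 : ∀ᶠ Z : ℝ in atTop, ∀ P ∈ s2,
      (Set.ncard {α : 𝓞 M | α ∈ cone M ∧ α - 1 ∈ n1 ∧ α ∈ P.1 ∧ nrm α ≤ Z} : ℝ) ≤
        (q * f P + η) * Z := by
    rw [Filter.eventually_all_finset]
    intro P _
    exact one_prime M c hc hcex n1 P.1 hn10 (hW P.1 P.2).1 (hW P.1 P.2).2 η hη0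
  refine ⟨q / 4, by positivity, ?_⟩
  filter_upwards [E2, E3, E4, eventually_gt_atTop 0] with Z hfin hS hB hZ
  set S : Set (𝓞 M) := {α | α ∈ cone M ∧ α - 1 ∈ n1 ∧ nrm α ≤ Z} with hSd
  set G : Set (𝓞 M) := {α | α ∈ cone M ∧ α - 1 ∈ 𝔫 ∧ (∀ 𝔓 ∈ W, α ∉ 𝔓) ∧ nrm α ≤ Z} with hGd
  set Bad : Set (𝓞 M) := {α | α ∈ S ∧ ∃ P : W, α ∈ P.1} with hBd
  set B : W → Set (𝓞 M) := fun P => {α | α ∈ cone M ∧ α - 1 ∈ n1 ∧ α ∈ P.1 ∧ nrm α ≤ Z} with hBB
  have hGfin : G.Finite := hfin.subset fun α h => ⟨h.1, h.2.2.2⟩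
  have hSfin : S.Finite := hfin.subset fun α h => ⟨h.1, h.2.2⟩
  have hBadfin : Bad.Finite := hSfin.subset fun α h => h.1
  have hBfin : ∀ P, (B P).Finite := fun P => hfin.subset fun α h => ⟨h.1, h.2.2.2⟩
  have hsub : S \ Bad ⊆ G := by
    rintro α ⟨k1, k2⟩
    refine ⟨k1.1, hn1n k1.2.1, ?_, k1.2.2⟩
    intro P hP hα
    exact k2 ⟨k1, ⟨P, hP⟩, hα⟩
  have hcard1 : (S.ncard : ℝ) ≤ (G.ncard : ℝ) + (Bad.ncard : ℝ) := by
    have k1 : S.ncard ≤ (S \ Bad).ncard + Bad.ncard := Set.ncard_le_ncard_sdiff_add_ncard S Bad hBadfin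
    have k2 : (S \ Bad).ncard ≤ G.ncard := Set.ncard_le_ncard hsub hGfin
    exact_mod_cast k1.trans (Nat.add_le_add_right k2 _)
  -- the primes
  have hg : ∀ α : Bad, ∃ P : W, (α : 𝓞 M) ∈ P.1 := fun α => α.2.2
  choose g hg using hg
  have : Fintype Bad := hBadfin.fintype
  set T : Finset W := Finset.univ.image g with hT
  have hT1 : ∀ P ∈ T, P ∉ s1 := by
    intro P hP hP1
    obtain ⟨α, -, rfl⟩ := Finset.mem_image.1 hP
    apply (hW (g α).1 (g α).2).1.ne_top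
    rw [Ideal.eq_top_iff_one]
    have := (g α).1.sub_mem (hg α) (hn1P _ hP1 α.2.1.2.1)
    rwa [sub_sub_cancel] at this
  have hcard2 : (Bad.ncard : ℝ) ≤ ∑ P ∈ T, ((B P).ncard : ℝ) := by
    have k1 : hBadfin.toFinset ⊆ T.biUnion fun P => (hBfin P).toFinset := by
      intro α hα
      rw [Set.Finite.mem_toFinset] at hα
      rw [Finset.mem_biUnion]
      refine ⟨g ⟨α, hα⟩, Finset.mem_image_of_mem _ (Finset.mem_univ _), ?_⟩
      rw [Set.Finite.mem_toFinset]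
      exact ⟨hα.1.1, hα.1.2.1, hg ⟨α, hα⟩, hα.1.2.2⟩
    have k2 := (Finset.card_le_card k1).trans Finset.card_biUnion_le
    rw [← Set.ncard_eq_toFinset_card Bad hBadfin] at k2
    have k3 : ∑ P ∈ T, (hBfin P).toFinset.card = ∑ P ∈ T, (B P).ncard :=
      Finset.sum_congr rfl fun P _ => (Set.ncard_eq_toFinset_card (B P) (hBfin P)).symm
    rw [k3] at k2
    exact_mod_cast k2
  rw [← Finset.sum_filter_add_sum_filter_not T (fun P => P ∈ s2)] at hcard2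
  have hsum1 : ∑ P ∈ T.filter (fun P => P ∈ s2), ((B P).ncard : ℝ) ≤ (q * (1 / 4) + q / 8) * Z := by
    have k1 : ∑ P ∈ T.filter (fun P => P ∈ s2), ((B P).ncard : ℝ) ≤
        ∑ P ∈ T.filter (fun P => P ∈ s2), (q * f P + η) * Z :=
      Finset.sum_le_sum fun P hP => hB P (Finset.mem_filter.1 hP).2
    refine k1.trans ?_
    rw [← Finset.sum_mul, Finset.sum_add_distrib, ← Finset.mul_sum, Finset.sum_const, nsmul_eq_mul]
    refine mul_le_mul_of_nonneg_right (add_le_add ?_ ?_) hZ.le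
    · refine mul_le_mul_of_nonneg_left ?_ hq0.le
      have k2 := hs1 (T.filter (fun P => P ∈ s2)) (by
        rw [Finset.disjoint_left]
        intro P hP
        exact hT1 P (Finset.mem_filter.1 hP).1)
      exact ((le_abs_self _).trans_lt k2).le
    · refine le_trans (mul_le_mul_of_nonneg_right ?_ hη0.le) hηc
      have k3 : T.filter (fun P => P ∈ s2) ⊆ s2 := fun P hP => (Finset.mem_filter.1 hP).2
      exact_mod_cast Finset.card_le_card k3
  have hsum2 : ∑ P ∈ T.filter (fun P => ¬ P ∈ s2), ((B P).ncard : ℝ) ≤ q / 8 * Z := by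
    have k1 : ∑ P ∈ T.filter (fun P => ¬ P ∈ s2), ((B P).ncard : ℝ) ≤
        ∑ P ∈ T.filter (fun P => ¬ P ∈ s2), (C * Z) * f P := by
      refine Finset.sum_le_sum fun P hP => ?_
      have k2 : (B P).ncard ≤ Set.ncard {α : 𝓞 M | α ∈ cone M ∧ α ∈ P.1 ∧ nrm α ≤ Z} :=
        Set.ncard_le_ncard (fun α h => ⟨h.1, h.2.2.1, h.2.2.2⟩)
          (hfin.subset fun α h => ⟨h.1, h.2.2⟩)
      have k3 := hcub P.1 (hW P.1 P.2).2 Z hZ.le
      have k4 : C * Z / (Ideal.absNorm P.1 : ℝ) = (C * Z) * f P := by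
        rw [hf]
        ring
      rw [← k4]
      exact le_trans (by exact_mod_cast k2) k3
    refine k1.trans ?_
    rw [← Finset.mul_sum]
    have k5 := hs2 (T.filter (fun P => ¬ P ∈ s2)) (by
      rw [Finset.disjoint_left]
      intro P hP
      exact (Finset.mem_filter.1 hP).2)
    have k6 : ∑ P ∈ T.filter (fun P => ¬ P ∈ s2), f P ≤ q / (8 * C) :=
      ((le_abs_self _).trans_lt k5).le
    calc C * Z * ∑ P ∈ T.filter (fun P => ¬ P ∈ s2), f P ≤ C * Z * (q / (8 * C)) :=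
          mul_le_mul_of_nonneg_left k6 (by positivity)
      _ = q / 8 * Z := by
          field_simp
  have hqZ : 0 < q * Z := mul_pos hq0 hZ
  nlinarith

end Pool.Agent.H419.RM.BGD
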