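import Pool.Agent.H419.RM.Stm
import Pool.Agent.H419.LT.Core

/-! # Quadratic extensions unramified at the primes of a set: the limit exists -/

set_option autoImplicit false
set_option linter.unusedSectionVars false
set_option maxHeartbeats 400000

open NumberField Filter Topology
open Pool.Agent.TH444.ML Pool.Agent.H419.LT

namespace Pool.Agent.H419.RM

theorem unr_of_ty {K L L' : Type} [Field K] [Field L] [Field L'] [Algebra K L] [Algebra K L']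
    {𝔭 : Ideal (𝓞 K)} (h : Unr K L 𝔭)
    (g : Ty K L' 𝔭 (𝓞 L ⧸ 𝔭.map (algebraMap (𝓞 K) (𝓞 L)))) : Unr K L' 𝔭 := by
  obtain ⟨g⟩ := g
  have h' : IsReduced (𝓞 L ⧸ 𝔭.map (algebraMap (𝓞 K) (𝓞 L))) := h
  exact isReduced_of_injective g g.injective

section

variable {M E : Type} [Field M] [NumberField M] [Field E] [Algebra M E] [IsAlgClosed E]

theorem locDet_unr (𝔓 : Ideal (𝓞 M)) (h𝔪 : 𝔓 ≠ ⊥) :
    LocDet M E (fun L : IntermediateField M E => Unr M L 𝔓) := by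
  intro 𝔠 h𝔠
  have hinj : Function.Injective (algebraMap (𝓞 M) (𝓞 M)) :=
    FaithfulSMul.algebraMap_injective (𝓞 M) (𝓞 M)
  have h0 : 𝔓.map (algebraMap (𝓞 M) (𝓞 M)) ≠ ⊥ := by
    rwa [Ne, Ideal.map_eq_bot_iff_of_injective hinj]
  refine ⟨Ideal.span {(4 : 𝓞 M)} * (𝔓.map (algebraMap (𝓞 M) (𝓞 M))) ^ 2 * 𝔠 ^ 2, ?_, ?_⟩
  · refine mul_ne_zero (mul_ne_zero ?_ (pow_ne_zero 2 h0)) (pow_ne_zero 2 h𝔠)
    rw [Ne, Ideal.zero_eq_bot, Ideal.span_singleton_eq_bot]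
    norm_num
  · intro α α' σ σ' hS _ hd hσ hσ' hn hn' hT
    obtain ⟨s, m, hs, hm, ht, h⟩ := exists_s_m _ 𝔠 h0 h𝔠 hS hd
    exact unr_of_ty hT (ty_adj TYG.t_TYG 𝔓 _ hσ hσ' hn hn' s m 1 hs hm ht h ⟨AlgEquiv.refl⟩)

theorem locDet_and {T T' : IntermediateField M E → Prop} (h : LocDet M E T) (h' : LocDet M E T') :
    LocDet M E (fun L => T L ∧ T' L) := by
  intro 𝔠 h𝔠
  obtain ⟨𝔫, h𝔫, h1⟩ := h 𝔠 h𝔠
  obtain ⟨𝔫', h𝔫', h2⟩ := h' 𝔠 h𝔠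
  refine ⟨𝔫 ⊓ 𝔫', ?_, ?_⟩
  · have h3 : 𝔫 * 𝔫' ≠ ⊥ := mul_ne_zero h𝔫 h𝔫'
    intro h4
    apply h3
    rw [eq_bot_iff, ← h4]
    exact Ideal.mul_le_inf
  · intro α α' σ σ' hS hS' hd hσ hσ' hn hn' hT
    obtain ⟨hd1, hd2⟩ := Submodule.mem_inf.1 hd
    obtain ⟨hT1, hT2⟩ := hT
    have e1 := h1 α α' σ σ' hS hS' hd1 hσ hσ' hn hn' hT1
    have e2 := h2 α α' σ σ' hS hS' hd2 hσ hσ' hn hn' hT2
    exact And.intro e1 e2

theorem locDet_true : LocDet M E (fun _ => True) :=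
  fun _ _ => ⟨⊤, top_ne_bot, fun _ _ _ _ _ _ _ _ _ _ _ _ => trivial⟩

theorem locDet_fin (W₀ : Finset (Ideal (𝓞 M))) (hW : ∀ 𝔓 ∈ W₀, 𝔓 ≠ ⊥) :
    LocDet M E (fun L : IntermediateField M E => ∀ 𝔓 ∈ W₀, Unr M L 𝔓) := by
  classical
  induction W₀ using Finset.induction_on with
  | empty =>
    have h := locDet_true (M := M) (E := E)
    have e : (fun L : IntermediateField M E => ∀ 𝔓 ∈ (∅ : Finset (Ideal (𝓞 M))), Unr M L 𝔓) =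
        fun _ => True := by
      funext L
      simp
    rw [e]
    exact h
  | insert 𝔓 W₁ hn ih =>
    have h := locDet_and (locDet_unr (E := E) 𝔓 (hW 𝔓 (Finset.mem_insert_self _ _)))
      (ih fun 𝔔 h𝔔 => hW 𝔔 (Finset.mem_insert_of_mem h𝔔))
    have e : (fun L : IntermediateField M E => ∀ 𝔔 ∈ insert 𝔓 W₁, Unr M L 𝔔) =
        fun L : IntermediateField M E => Unr M L 𝔓 ∧ ∀ 𝔔 ∈ W₁, Unr M L 𝔔 := by
      funext L
      simp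
    rw [e]
    exact h

end

/-- A function which is near to convergent functions converges. -/
theorem tendsto_of_near (f : ℝ → ℝ)
    (h : ∀ ε : ℝ, 0 < ε → ∃ (g : ℝ → ℝ) (c : ℝ), Tendsto g atTop (𝓝 c) ∧
      ∀ᶠ Y in atTop, |f Y - g Y| ≤ ε) : ∃ c : ℝ, Tendsto f atTop (𝓝 c) := by
  have hc : Cauchy (map f atTop) := by
    rw [Metric.cauchy_iff]
    refine ⟨inferInstance, fun ε hε => ?_⟩
    obtain ⟨g, c, hg, hfg⟩ := h (ε / 6) (by positivity)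
    have h1 : ∀ᶠ Y in atTop, |g Y - c| < ε / 6 := by
      have := Metric.tendsto_nhds.1 hg (ε / 6) (by positivity)
      filter_upwards [this] with Y hY
      rwa [Real.dist_eq] at hY
    refine ⟨{y | |y - c| < ε / 2}, ?_, ?_⟩
    · rw [Filter.mem_map]
      filter_upwards [h1, hfg] with Y h2 h3
      show |f Y - c| < ε / 2
      calc |f Y - c| = |(f Y - g Y) + (g Y - c)| := by ring_nf
        _ ≤ |f Y - g Y| + |g Y - c| := abs_add_le _ _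
        _ < ε / 2 := by linarith
    · intro x hx y hy
      have hx' : |x - c| < ε / 2 := hx
      have hy' : |y - c| < ε / 2 := hy
      rw [Real.dist_eq]
      calc |x - y| = |(x - c) - (y - c)| := by ring_nf
        _ ≤ |x - c| + |y - c| := abs_sub _ _
        _ < ε := by linarith
  obtain ⟨c, hc'⟩ := CompleteSpace.complete hc
  exact ⟨c, hc'⟩

section

variable {M E : Type} [Field M] [NumberField M] [Field E] [Algebra M E] [IsAlgClosed E]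

theorem finite_QS (Y : ℝ) (hY : 0 ≤ Y) : (QS M E Y).Finite := by
  obtain ⟨C, hC⟩ := quadUnif (Module.finrank ℚ M)
  exact (hC M E rfl Y hY).1

theorem finite_two : {𝔓 : Ideal (𝓞 M) | 𝔓.IsPrime ∧ 𝔓 ≠ ⊥ ∧ (2 : 𝓞 M) ∈ 𝔓}.Finite := by
  have h0 : Ideal.span {(2 : 𝓞 M)} ≠ 0 := by
    rw [Ne, Ideal.zero_eq_bot, Ideal.span_singleton_eq_bot]
    norm_num
  have h1 := Ideal.finite_factors h0
  refine (h1.image (fun v => v.asIdeal)).subset ?_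
  rintro 𝔓 ⟨h2, h3, h4⟩
  refine ⟨⟨𝔓, h2, h3⟩, ?_, rfl⟩
  rw [Set.mem_ofPred_eq, Ideal.dvd_iff_le, Ideal.span_singleton_le_iff_mem]
  exact h4

open Classical in
/-- the tail -/
theorem near_fin (hdiv : S_DIV) (W : Set (Ideal (𝓞 M))) (hW : ∀ 𝔓 ∈ W, 𝔓.IsPrime ∧ 𝔓 ≠ ⊥)
    (hs : Summable (fun 𝔓 : W => (1 : ℝ) / Ideal.absNorm 𝔓.1)) (ε : ℝ) (hε : 0 < ε) :
    ∃ W₀ : Finset (Ideal (𝓞 M)), (∀ 𝔓 ∈ W₀, 𝔓 ∈ W) ∧ ∀ Y : ℝ, 0 < Y →
      |(Set.ncard {L : IntermediateField M E | L ∈ QS M E Y ∧ ∀ 𝔓 ∈ W, Unr M L 𝔓} : ℝ) / Y -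
        (Set.ncard {L : IntermediateField M E | L ∈ QS M E Y ∧ ∀ 𝔓 ∈ W₀, Unr M L 𝔓} : ℝ) / Y| ≤
        ε := by
  obtain ⟨C, hC⟩ := hdiv M E
  obtain ⟨s, hs'⟩ := summable_iff_vanishing_norm.1 hs (ε / (|C| + 1)) (by positivity)
  set W₂ : Finset (Ideal (𝓞 M)) := (finite_two (M := M)).toFinset.filter (fun 𝔓 => 𝔓 ∈ W)
    with hW₂
  set W₀ : Finset (Ideal (𝓞 M)) := s.image (fun 𝔓 => 𝔓.1) ∪ W₂ with hW₀
  refine ⟨W₀, ?_, ?_⟩
  · intro 𝔓 h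
    rw [hW₀, Finset.mem_union] at h
    rcases h with h | h
    · obtain ⟨𝔔, -, rfl⟩ := Finset.mem_image.1 h
      exact 𝔔.2
    · exact (Finset.mem_filter.1 h).2
  intro Y hY
  set A := {L : IntermediateField M E | L ∈ QS M E Y ∧ ∀ 𝔓 ∈ W, Unr M L 𝔓} with hA
  set B := {L : IntermediateField M E | L ∈ QS M E Y ∧ ∀ 𝔓 ∈ W₀, Unr M L 𝔓} with hB
  have hQ := finite_QS (M := M) (E := E) Y hY.le
  have hAf : A.Finite := hQ.subset fun L h => h.1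
  have hBf : B.Finite := hQ.subset fun L h => h.1
  have hAB : A ⊆ B := by
    rintro L ⟨h1, h2⟩
    refine ⟨h1, fun 𝔓 h𝔓 => h2 𝔓 ?_⟩
    rw [hW₀, Finset.mem_union] at h𝔓
    rcases h𝔓 with h | h
    · obtain ⟨𝔔, -, rfl⟩ := Finset.mem_image.1 h
      exact 𝔔.2
    · exact (Finset.mem_filter.1 h).2
  have hdiff : ∀ L : IntermediateField M E, L ∈ B \ A → ∃ 𝔓 : W, 𝔓.1 ∉ W₀ ∧ ¬ Unr M L 𝔓.1 := by
    rintro L ⟨⟨h1, h2⟩, h3⟩
    by_contra hcon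
    push Not at hcon
    apply h3
    refine ⟨h1, fun 𝔓 h𝔓 => ?_⟩
    by_cases h4 : 𝔓 ∈ W₀
    · exact h2 𝔓 h4
    · exact hcon ⟨𝔓, h𝔓⟩ h4
  choose p hp1 hp2 using hdiff
  have hDf : (B \ A).Finite := hBf.subset Set.sdiff_subset
  set F : Finset W := hDf.toFinset.attach.image
    (fun L => p L.1 (hDf.mem_toFinset.1 L.2)) with hF
  have hFs : Disjoint F s := by
    rw [Finset.disjoint_left]
    intro 𝔓 h1 h2
    obtain ⟨⟨L, hL'⟩, -, rfl⟩ := Finset.mem_image.1 h1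
    have hL := hDf.mem_toFinset.1 hL'
    apply hp1 L hL
    rw [hW₀, Finset.mem_union]
    exact Or.inl (Finset.mem_image.2 ⟨_, h2, rfl⟩)
  have hcard : ((B \ A).ncard : ℝ) ≤ ∑ 𝔓 ∈ F, C * Y / Ideal.absNorm 𝔓.1 := by
    have h1 : (B \ A) ⊆ ⋃ 𝔓 ∈ F, {L : IntermediateField M E | L ∈ QS M E Y ∧ ¬ Unr M L 𝔓.1} := by
      intro L hL
      rw [Set.mem_iUnion₂]
      exact ⟨p L hL, Finset.mem_image.2 ⟨⟨L, hDf.mem_toFinset.2 hL⟩, Finset.mem_attach _ _, rfl⟩,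
        hL.1.1, hp2 L hL⟩
    have h2 : (⋃ 𝔓 ∈ F, {L : IntermediateField M E | L ∈ QS M E Y ∧ ¬ Unr M L 𝔓.1}).Finite := by
      refine hQ.subset ?_
      intro L hL
      rw [Set.mem_iUnion₂] at hL
      obtain ⟨_, _, h3, _⟩ := hL
      exact h3
    have h3 : ((B \ A).ncard : ℝ) ≤ ∑ 𝔓 ∈ F,
        (Set.ncard {L : IntermediateField M E | L ∈ QS M E Y ∧ ¬ Unr M L 𝔓.1} : ℝ) := by
      have h4 := Set.ncard_le_ncard h1 h2
      have h5 := Finset.set_ncard_biUnion_le F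
        (fun 𝔓 : W => {L : IntermediateField M E | L ∈ QS M E Y ∧ ¬ Unr M L 𝔓.1})
      exact_mod_cast h4.trans h5
    refine h3.trans (Finset.sum_le_sum fun 𝔓 h𝔓 => ?_)
    have h5 : 𝔓.1 ∉ W₀ := by
      obtain ⟨⟨L, hL⟩, -, rfl⟩ := Finset.mem_image.1 h𝔓
      exact hp1 L (hDf.mem_toFinset.1 hL)
    refine hC 𝔓.1 (hW _ 𝔓.2).1 (hW _ 𝔓.2).2 ?_ Y hY.le
    intro h6
    apply h5
    rw [hW₀, Finset.mem_union]
    right
    rw [hW₂, Finset.mem_filter, Set.Finite.mem_toFinset]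
    exact ⟨⟨(hW _ 𝔓.2).1, (hW _ 𝔓.2).2, h6⟩, 𝔓.2⟩
  have hsum : ∑ 𝔓 ∈ F, C * Y / Ideal.absNorm 𝔓.1 ≤ ε * Y := by
    have h1 : ∑ 𝔓 ∈ F, C * Y / Ideal.absNorm 𝔓.1 =
        C * Y * ∑ 𝔓 ∈ F, (1 : ℝ) / Ideal.absNorm 𝔓.1 := by
      rw [Finset.mul_sum]
      exact Finset.sum_congr rfl fun _ _ => by ring
    have h2 := hs' F hFs
    rw [Real.norm_eq_abs] at h2
    have h3 : (0 : ℝ) ≤ ∑ 𝔓 ∈ F, (1 : ℝ) / Ideal.absNorm 𝔓.1 :=
      Finset.sum_nonneg fun _ _ => by positivity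
    rw [abs_of_nonneg h3, lt_div_iff₀ (by positivity)] at h2
    rw [h1]
    have h4 : C * Y ≤ (|C| + 1) * Y := by
      refine mul_le_mul_of_nonneg_right ?_ hY.le
      linarith [le_abs_self C]
    calc C * Y * ∑ 𝔓 ∈ F, (1 : ℝ) / Ideal.absNorm 𝔓.1
        ≤ (|C| + 1) * Y * ∑ 𝔓 ∈ F, (1 : ℝ) / Ideal.absNorm 𝔓.1 :=
          mul_le_mul_of_nonneg_right h4 h3
      _ = ((∑ 𝔓 ∈ F, (1 : ℝ) / Ideal.absNorm 𝔓.1) * (|C| + 1)) * Y := by ring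
      _ ≤ ε * Y := mul_le_mul_of_nonneg_right h2.le hY.le
  have hBA : (B.ncard : ℝ) = A.ncard + (B \ A).ncard := by
    have := Set.ncard_sdiff_add_ncard_of_subset hAB hBf
    have h2 : (((B \ A).ncard + A.ncard : ℕ) : ℝ) = B.ncard := by exact_mod_cast this
    push_cast at h2
    linarith
  rw [← sub_div, hBA, abs_div, abs_of_pos hY, div_le_iff₀ hY]
  have h5 : (A.ncard : ℝ) - (A.ncard + (B \ A).ncard) = - ((B \ A).ncard : ℝ) := by ring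
  rw [h5, abs_neg, abs_of_nonneg (by positivity)]
  exact hcard.trans hsum

/-- LIMW: the limit exists. -/
theorem limw (hdiv : S_DIV) (hupb : S_UPB) (hidc : S_IDC) (W : Set (Ideal (𝓞 M)))
    (hW : ∀ 𝔓 ∈ W, 𝔓.IsPrime ∧ 𝔓 ≠ ⊥) :
    ∃ c : ℝ, Tendsto (fun Y : ℝ =>
      (Set.ncard {L : IntermediateField M E | L ∈ QS M E Y ∧ ∀ 𝔓 ∈ W, Unr M L 𝔓} : ℝ) / Y)
      atTop (𝓝 c) ∧ (¬ Summable (fun 𝔓 : W => (1 : ℝ) / Ideal.absNorm 𝔓.1) → c = 0) := by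
  classical
  by_cases hs : Summable (fun 𝔓 : W => (1 : ℝ) / Ideal.absNorm 𝔓.1)
  · obtain ⟨c, hc⟩ := tendsto_of_near (fun Y : ℝ => (Set.ncard {L : IntermediateField M E |
      L ∈ QS M E Y ∧ ∀ 𝔓 ∈ W, Unr M L 𝔓} : ℝ) / Y) (by
        intro ε hε
        obtain ⟨W₀, h1, h2⟩ := near_fin (E := E) hdiv W hW hs ε hε
        obtain ⟨c, hc⟩ := LIMP.t_LIMP M E (fun L : IntermediateField M E => ∀ 𝔓 ∈ W₀, Unr M L 𝔓)
          (locDet_fin W₀ fun 𝔓 h => (hW 𝔓 (h1 𝔓 h)).2)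
        refine ⟨_, c, hc, ?_⟩
        filter_upwards [eventually_gt_atTop (0 : ℝ)] with Y hY
        exact h2 Y hY)
    exact ⟨c, hc, fun h => absurd hs h⟩
  · refine ⟨0, ?_, fun _ => rfl⟩
    obtain ⟨C, hC0, hC⟩ := hupb M E
    rw [Metric.tendsto_nhds]
    intro ε hε
    obtain ⟨W₀, h1, h2⟩ := hidc M W hW hs (ε / (2 * C * C)) (by positivity)
    have h3 : Tendsto (fun Y : ℝ => C * Y) atTop atTop := Tendsto.const_mul_atTop hC0 tendsto_id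
    filter_upwards [h3.eventually h2, eventually_gt_atTop (0 : ℝ)] with Y h4 hY
    rw [Real.dist_eq, sub_zero, abs_of_nonneg (by positivity), div_lt_iff₀ hY]
    have hQ := finite_QS (M := M) (E := E) Y hY.le
    have h5 : (Set.ncard {L : IntermediateField M E | L ∈ QS M E Y ∧ ∀ 𝔓 ∈ W, Unr M L 𝔓} : ℝ) ≤
        Set.ncard {L : IntermediateField M E | L ∈ QS M E Y ∧ ∀ 𝔓 ∈ W₀, Unr M L 𝔓} := by
      have : {L : IntermediateField M E | L ∈ QS M E Y ∧ ∀ 𝔓 ∈ W, Unr M L 𝔓} ⊆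
          {L : IntermediateField M E | L ∈ QS M E Y ∧ ∀ 𝔓 ∈ W₀, Unr M L 𝔓} :=
        fun L h => ⟨h.1, fun 𝔓 h𝔓 => h.2 𝔓 (h1 𝔓 h𝔓)⟩
      exact_mod_cast Set.ncard_le_ncard this (hQ.subset fun L h => h.1)
    refine h5.trans_lt ((hC W₀ (fun 𝔓 h => hW 𝔓 (h1 𝔓 h)) Y hY.le).trans_lt ?_)
    calc C * (Set.ncard {I : Ideal (𝓞 M) | I ≠ ⊥ ∧ (∀ 𝔓 ∈ W₀, ¬ 𝔓 ∣ I) ∧
          (Ideal.absNorm I : ℝ) ≤ C * Y} : ℝ) ≤ C * (ε / (2 * C * C) * (C * Y)) :=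
          mul_le_mul_of_nonneg_left h4 hC0.le
      _ = ε / 2 * Y := by field_simp
      _ < ε * Y := by nlinarith

end

end Pool.Agent.H419.RM
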