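import Pool.Agent.H419.RM.Limw
import Pool.Agent.H419.RM.POSI
import Pool.Agent.H419.RM.BGD
import Pool.Agent.H419.RM.CEX
import Pool.Agent.H419.RM.CUB
import Pool.Agent.H419.RM.RAMB

/-! # Quadratic extensions unramified at the primes of a set: positivity -/

set_option autoImplicit false
set_option linter.unusedSectionVars false
set_option maxHeartbeats 400000

open NumberField Filter Topology
open Pool.Agent.TH444.ML Pool.Agent.H419.LT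

namespace Pool.Agent.H419.RM

variable {M E : Type} [Field M] [NumberField M] [Field E] [Algebra M E] [IsAlgClosed E]

theorem nf_adj {β : 𝓞 M} {s : E} (hs : s ^ 2 = algebraMap M E (β : M))
    (hns : ∀ x : M, algebraMap M E x ≠ s) : NumberField (IntermediateField.adjoin M {s}) := by
  have h2 := finrank_adj hs hns
  have : FiniteDimensional M (IntermediateField.adjoin M {s}) :=
    FiniteDimensional.of_finrank_pos (by omega)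
  exact NumberField.of_module_finite M _

/-- the split algebra is reduced modulo a prime ideal -/
theorem red_split (𝔓 : Ideal (𝓞 M)) (h : 𝔓.IsPrime) :
    IsReduced ((𝓞 M × 𝓞 M) ⧸ 𝔓.map (algebraMap (𝓞 M) (𝓞 M × 𝓞 M))) := by
  obtain ⟨e⟩ := prod_quot (𝓞 M) (𝓞 M) 𝔓
  have h1 : 𝔓.map (algebraMap (𝓞 M) (𝓞 M)) = 𝔓 := by
    have : algebraMap (𝓞 M) (𝓞 M) = RingHom.id _ := rfl
    rw [this, Ideal.map_id]
  have h2 : IsReduced (𝓞 M ⧸ 𝔓.map (algebraMap (𝓞 M) (𝓞 M))) := by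
    rw [h1]
    infer_instance
  exact isReduced_of_injective e e.injective

theorem unr_of_red {K L : Type} [Field K] [Field L] [Algebra K L] (𝔭 : Ideal (𝓞 K)) (R : Type)
    [CommRing R] [Algebra (𝓞 K) R] (hR : IsReduced R) (h : Ty K L 𝔭 R) : Unr K L 𝔭 := by
  obtain ⟨g⟩ := h
  exact isReduced_of_injective g g.injective

theorem unr_two (𝔓 : Ideal (𝓞 M)) (h : 𝔓.IsPrime) (β : 𝓞 M) (s : E)
    (hβ : β - 1 ∈ Ideal.span {(4 : 𝓞 M)} * 𝔓.map (algebraMap (𝓞 M) (𝓞 M)))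
    (hs : s ^ 2 = algebraMap M E ((1 * β : 𝓞 M) : M)) (hns : ∀ x : M, algebraMap M E x ≠ s) :
    Unr M (IntermediateField.adjoin M {s}) 𝔓 := by
  have h1 := pos_split (K := M) TYG.t_TYG 𝔓
    ((𝓞 M × 𝓞 M) ⧸ 𝔓.map (algebraMap (𝓞 M) (𝓞 M × 𝓞 M))) ⟨AlgEquiv.refl⟩ β s hβ hs hns
  exact unr_of_red 𝔓 _ (red_split 𝔓 h) h1

theorem unr_odd (𝔓 : Ideal (𝓞 M)) (h : 𝔓.IsPrime) (h0 : 𝔓 ≠ ⊥) (h2 : (2 : 𝓞 M) ∉ 𝔓) (β : 𝓞 M)
    (s : E) (hβ : β ∉ 𝔓)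
    (hs : s ^ 2 = algebraMap M E ((1 * β : 𝓞 M) : M)) (hns : ∀ x : M, algebraMap M E x ≠ s) :
    Unr M (IntermediateField.adjoin M {s}) 𝔓 := by
  rw [one_mul] at hs
  have hβ0 : β ≠ 0 := by
    rintro rfl
    exact hβ (Ideal.zero_mem _)
  have hnf := nf_adj hs hns
  obtain ⟨𝔡, 𝔠, hd, hc, hdc⟩ := Pool.Agent.TH858.J3094.exists_dec (Ideal.span {β})
    (by simpa using hβ0)
  refine RAMB.t_RAMB M (IntermediateField.adjoin M {s})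
    ⟨s, IntermediateField.mem_adjoin_simple_self M s⟩ β 𝔡 𝔠 𝔓 (finrank_adj hs hns) ?_ ?_ hβ0 hd
    hdc h h0 h2 ?_
  · apply Subtype.ext
    simpa using hs
  · intro x hx
    exact hns x (by simpa using congrArg Subtype.val hx)
  · intro h3
    apply hβ
    have h4 : 𝔓 ∣ Ideal.span {β} := by
      rw [hdc]
      exact h3.mul_right _
    rwa [Ideal.dvd_iff_le, Ideal.span_singleton_le_iff_mem] at h4

theorem posw (W : Set (Ideal (𝓞 M))) (hW : ∀ 𝔓 ∈ W, 𝔓.IsPrime ∧ 𝔓 ≠ ⊥)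
    (hs : Summable (fun 𝔓 : W => (1 : ℝ) / Ideal.absNorm 𝔓.1)) :
    ¬ Tendsto (fun Y : ℝ =>
      (Set.ncard {L : IntermediateField M E | L ∈ QS M E Y ∧ ∀ 𝔓 ∈ W, Unr M L 𝔓} : ℝ) / Y)
      atTop (𝓝 0) := by
  classical
  set W₂ : Finset (Ideal (𝓞 M)) := (finite_two (M := M)).toFinset with hW₂
  have hinj : Function.Injective (algebraMap (𝓞 M) (𝓞 M)) :=
    FaithfulSMul.algebraMap_injective (𝓞 M) (𝓞 M)
  have h𝔫 : Ideal.span {(4 : 𝓞 M)} * ∏ 𝔓 ∈ W₂, 𝔓.map (algebraMap (𝓞 M) (𝓞 M)) ≠ ⊥ := by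
    refine mul_ne_zero ?_ (Finset.prod_ne_zero_iff.2 fun 𝔓 h => ?_)
    · rw [Ne, Ideal.zero_eq_bot, Ideal.span_singleton_eq_bot]
      norm_num
    · rw [hW₂, Set.Finite.mem_toFinset] at h
      rw [Ne, Ideal.zero_eq_bot, Ideal.map_eq_bot_iff_of_injective hinj]
      exact h.2.1
  refine POSI.t_POSI (BGD.t_BGD CEX.t_CEX CUB.t_CUB) M E
    (fun L : IntermediateField M E => ∀ 𝔓 ∈ W, Unr M L 𝔓) 1 _ W one_ne_zero h𝔫 hW hs ?_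
  intro β s hβ hβW hs' hns 𝔓 h𝔓
  by_cases h2 : (2 : 𝓞 M) ∈ 𝔓
  · refine unr_two 𝔓 (hW 𝔓 h𝔓).1 β s ?_ hs' hns
    have h3 : 𝔓 ∈ W₂ := by
      rw [hW₂, Set.Finite.mem_toFinset]
      exact ⟨(hW 𝔓 h𝔓).1, (hW 𝔓 h𝔓).2, h2⟩
    have h4 : Ideal.span {(4 : 𝓞 M)} * ∏ 𝔔 ∈ W₂, 𝔔.map (algebraMap (𝓞 M) (𝓞 M)) ≤
        Ideal.span {(4 : 𝓞 M)} * 𝔓.map (algebraMap (𝓞 M) (𝓞 M)) :=
      Ideal.mul_mono_right (Ideal.dvd_iff_le.1 (Finset.dvd_prod_of_mem _ h3))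
    exact h4 hβ
  · exact unr_odd 𝔓 (hW 𝔓 h𝔓).1 (hW 𝔓 h𝔓).2 h2 β s (hβW 𝔓 h𝔓) hs' hns

end Pool.Agent.H419.RM
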