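import Pool.Agent.H419.LT.Stm

/-! # Malle's conjecture for `C₂ ≀ H` and ramification at infinitely many primes: statements -/

set_option autoImplicit false

open NumberField Filter Topology
open Pool.Agent.TH444.ML Pool.Agent.H419.LT

namespace Pool.Agent.H419.RM

/-- `L/K` is unramified at `𝔭`: the ring `𝓞_L / 𝔭 𝓞_L` is reduced. -/
def Unr (K : Type) [Field K] (L : Type) [Field L] [Algebra K L] (𝔭 : Ideal (𝓞 K)) : Prop :=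
  IsReduced (𝓞 L ⧸ 𝔭.map (algebraMap (𝓞 K) (𝓞 L)))

/-- RAMA: `M(√α)` is ramified at the primes where `α` has odd valuation. -/
def S_RAMA : Prop := ∀ (M L : Type) [Field M] [NumberField M] [Field L] [NumberField L]
  [Algebra M L] (s : L) (α : 𝓞 M) (𝔡 𝔠 𝔓 : Ideal (𝓞 M)), s ^ 2 = algebraMap M L (α : M) →
  α ≠ 0 → Squarefree 𝔡 → Ideal.span {α} = 𝔡 * 𝔠 ^ 2 → 𝔓.IsPrime → 𝔓 ≠ ⊥ → 𝔓 ∣ 𝔡 →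
  ¬ Unr M L 𝔓

/-- RAMB: `M(√α)` is unramified at the odd primes where `α` has even valuation. -/
def S_RAMB : Prop := ∀ (M L : Type) [Field M] [NumberField M] [Field L] [NumberField L]
  [Algebra M L] (s : L) (α : 𝓞 M) (𝔡 𝔠 𝔓 : Ideal (𝓞 M)), Module.finrank M L = 2 →
  s ^ 2 = algebraMap M L (α : M) → (∀ x : M, algebraMap M L x ≠ s) →
  α ≠ 0 → Squarefree 𝔡 → Ideal.span {α} = 𝔡 * 𝔠 ^ 2 → 𝔓.IsPrime → 𝔓 ≠ ⊥ → (2 : 𝓞 M) ∉ 𝔓 →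
  ¬ 𝔓 ∣ 𝔡 → Unr M L 𝔓

/-- TOW: unramified in a tower. -/
def S_TOW : Prop := ∀ (K M L : Type) [Field K] [NumberField K] [Field M] [NumberField M]
  [Field L] [NumberField L] [Algebra K M] [Algebra M L] [Algebra K L] [IsScalarTower K M L]
  (𝔭 : Ideal (𝓞 K)), 𝔭.IsPrime → 𝔭 ≠ ⊥ →
  (Unr K L 𝔭 ↔ Unr K M 𝔭 ∧ ∀ 𝔓 : Ideal (𝓞 M), 𝔓.IsPrime →
    𝔓.comap (algebraMap (𝓞 K) (𝓞 M)) = 𝔭 → Unr M L 𝔓)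

/-- IDC: ideals without prime divisors in a set of primes with a divergent sum are few. -/
def S_IDC : Prop := ∀ (M : Type) [Field M] [NumberField M] (W : Set (Ideal (𝓞 M))),
  (∀ 𝔓 ∈ W, 𝔓.IsPrime ∧ 𝔓 ≠ ⊥) →
  ¬ Summable (fun 𝔓 : W => (1 : ℝ) / Ideal.absNorm 𝔓.1) → ∀ ε : ℝ, 0 < ε →
  ∃ W₀ : Finset (Ideal (𝓞 M)), (∀ 𝔓 ∈ W₀, 𝔓 ∈ W) ∧ ∀ᶠ Z : ℝ in atTop,
    (Set.ncard {I : Ideal (𝓞 M) | I ≠ ⊥ ∧ (∀ 𝔓 ∈ W₀, ¬ 𝔓 ∣ I) ∧ (Ideal.absNorm I : ℝ) ≤ Z} : ℝ) ≤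
      ε * Z

/-- CEX: the densities of the residue classes in the cone are equal. -/
def S_CEX : Prop := ∀ (M : Type) [Field M] [NumberField M], ∃ c : ℝ, 0 < c ∧
  ∀ (𝔟 : Ideal (𝓞 M)), 𝔟 ≠ ⊥ → ∀ a : 𝓞 M, Tendsto (fun Z : ℝ =>
    (Set.ncard {α : 𝓞 M | α ∈ cone M ∧ α - a ∈ 𝔟 ∧ nrm α ≤ Z} : ℝ) / Z) atTop
    (𝓝 (c / Ideal.absNorm 𝔟))

/-- CUB: uniform bound for the elements of an ideal in the cone. -/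
def S_CUB : Prop := ∀ (M : Type) [Field M] [NumberField M], ∃ C : ℝ, 0 < C ∧
  ∀ (𝔟 : Ideal (𝓞 M)), 𝔟 ≠ ⊥ → ∀ Z : ℝ, 0 ≤ Z →
    (Set.ncard {α : 𝓞 M | α ∈ cone M ∧ α ∈ 𝔟 ∧ nrm α ≤ Z} : ℝ) ≤ C * Z / Ideal.absNorm 𝔟

/-- BGD: elements near `1` without prime divisors in a set of primes with a convergent sum. -/
def S_BGD : Prop := ∀ (M : Type) [Field M] [NumberField M] (𝔫 : Ideal (𝓞 M))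
  (W : Set (Ideal (𝓞 M))), 𝔫 ≠ ⊥ → (∀ 𝔓 ∈ W, 𝔓.IsPrime ∧ 𝔓 ≠ ⊥) →
  Summable (fun 𝔓 : W => (1 : ℝ) / Ideal.absNorm 𝔓.1) →
  ∃ δ : ℝ, 0 < δ ∧ ∀ᶠ Z : ℝ in atTop, δ * Z ≤
    (Set.ncard {α : 𝓞 M | α ∈ cone M ∧ α - 1 ∈ 𝔫 ∧ (∀ 𝔓 ∈ W, α ∉ 𝔓) ∧ nrm α ≤ Z} : ℝ)

/-- DIV: quadratic extensions of `M` ramified at a given prime. -/
def S_DIV : Prop := ∀ (M E : Type) [Field M] [NumberField M] [Field E] [Algebra M E]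
  [IsAlgClosed E], ∃ C : ℝ, ∀ 𝔓 : Ideal (𝓞 M), 𝔓.IsPrime → 𝔓 ≠ ⊥ → (2 : 𝓞 M) ∉ 𝔓 →
  ∀ Y : ℝ, 0 ≤ Y →
    (Set.ncard {L : IntermediateField M E | L ∈ QS M E Y ∧ ¬ Unr M L 𝔓} : ℝ) ≤
      C * Y / Ideal.absNorm 𝔓

/-- UPB: quadratic extensions of `M` unramified at the primes of a finite set. -/
def S_UPB : Prop := ∀ (M E : Type) [Field M] [NumberField M] [Field E] [Algebra M E]
  [IsAlgClosed E], ∃ C : ℝ, 0 < C ∧ ∀ W₀ : Finset (Ideal (𝓞 M)),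
  (∀ 𝔓 ∈ W₀, 𝔓.IsPrime ∧ 𝔓 ≠ ⊥) → ∀ Y : ℝ, 0 ≤ Y →
    (Set.ncard {L : IntermediateField M E | L ∈ QS M E Y ∧ ∀ 𝔓 ∈ W₀, Unr M L 𝔓} : ℝ) ≤
      C * Set.ncard {I : Ideal (𝓞 M) | I ≠ ⊥ ∧ (∀ 𝔓 ∈ W₀, ¬ 𝔓 ∣ I) ∧
        (Ideal.absNorm I : ℝ) ≤ C * Y}

/-- POSI: the limit is positive, if the fields `M(√(α₀ β))` have the property for the `β ≡ 1`
modulo `𝔫` without prime divisors in `W`. -/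
def S_POSI : Prop := ∀ (M E : Type) [Field M] [NumberField M] [Field E] [Algebra M E]
  [IsAlgClosed E] (T : IntermediateField M E → Prop) (α₀ : 𝓞 M) (𝔫 : Ideal (𝓞 M))
  (W : Set (Ideal (𝓞 M))), α₀ ≠ 0 → 𝔫 ≠ ⊥ → (∀ 𝔓 ∈ W, 𝔓.IsPrime ∧ 𝔓 ≠ ⊥) →
  Summable (fun 𝔓 : W => (1 : ℝ) / Ideal.absNorm 𝔓.1) →
  (∀ (β : 𝓞 M) (s : E), β - 1 ∈ 𝔫 → (∀ 𝔓 ∈ W, β ∉ 𝔓) →
    s ^ 2 = algebraMap M E ((α₀ * β : 𝓞 M) : M) →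
    (∀ x : M, algebraMap M E x ≠ s) → T (IntermediateField.adjoin M {s})) →
  ¬ Tendsto (fun Y : ℝ =>
    (Set.ncard {L : IntermediateField M E | L ∈ QS M E Y ∧ T L} : ℝ) / Y) atTop (𝓝 0)

end Pool.Agent.H419.RM
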