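import Pool.Agent.H419.RM.Stm

/-! # Totally split primes: statement -/

set_option autoImplicit false

open NumberField

namespace Pool.Agent.H419.RM

/-- SPS: only the totally split primes matter for the convergence of the sum of `1 / N 𝔓`. -/
def S_SPS : Prop := ∀ (K M : Type) [Field K] [NumberField K] [Field M] [NumberField M]
  [Algebra K M] [IsGalois K M] (S : Set (Ideal (𝓞 K))), (∀ 𝔭 ∈ S, 𝔭.IsPrime ∧ 𝔭 ≠ ⊥) →
  (Summable (fun 𝔓 : {𝔓 : Ideal (𝓞 M) | 𝔓.IsPrime ∧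
      𝔓.comap (algebraMap (𝓞 K) (𝓞 M)) ∈ S} => (1 : ℝ) / Ideal.absNorm 𝔓.1) ↔
    Summable (fun 𝔭 : {𝔭 : Ideal (𝓞 K) // 𝔭 ∈ S ∧
      Set.ncard (𝔭.primesOver (𝓞 M)) = Module.finrank K M} => (1 : ℝ) / Ideal.absNorm 𝔭.1))

end Pool.Agent.H419.RM
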